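import Mathlib

set_option autoImplicit false

namespace Pool.Agent.Helper98.PCF

open MvPolynomial

/-- Chain rule for a derivation of a polynomial ring. -/
theorem deriv_aeval {σ R : Type*} [Fintype σ] [CommRing R]
    (D : Derivation R (MvPolynomial σ R) (MvPolynomial σ R)) (F : σ → MvPolynomial σ R)
    (p : MvPolynomial σ R) :
    D (aeval F p) = ∑ j, aeval F (pderiv j p) * D (F j) := by
  classical
  induction p using MvPolynomial.induction_on with
  | C a =>
    rw [aeval_C]
    have h1 : D (algebraMap R (MvPolynomial σ R) a) = 0 := D.map_algebraMap a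
    rw [h1]
    simp [pderiv_C]
  | add p q hp hq =>
    rw [map_add, map_add, hp, hq, ← Finset.sum_add_distrib]
    refine Finset.sum_congr rfl fun j _ => ?_
    rw [map_add, map_add, add_mul]
  | mul_X p i hp =>
    rw [map_mul, aeval_X, D.leibniz, hp]
    have h1 : ∀ j, aeval F (pderiv j (p * X i)) * D (F j) =
        aeval F p * (if j = i then D (F j) else 0) + F i * (aeval F (pderiv j p) * D (F j)) := by
      intro j
      rw [pderiv_mul, map_add, map_mul, map_mul, aeval_X]
      rcases eq_or_ne j i with rfl | hne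
      · rw [pderiv_X_self, map_one, if_pos rfl]; ring
      · rw [pderiv_X_of_ne hne.symm, map_zero, if_neg hne]; ring
    rw [Finset.sum_congr rfl fun j _ => h1 j, Finset.sum_add_distrib, ← Finset.mul_sum,
      ← Finset.mul_sum, Finset.sum_ite_eq' Finset.univ i]
    simp only [Finset.mem_univ, if_true, smul_eq_mul]

/-- A derivation which maps a prime ideal `𝔭` to itself and maps a subring over which the ring is
integral into `𝔭` maps everything into `𝔭`, if the residue ring has characteristic zero. -/
theorem deriv_mem_of_integral {R S : Type*} [CommRing R] [CommRing S] (φ : S →+* R)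
    (hφ : φ.IsIntegral) (𝔭 : Ideal R) (hp : 𝔭.IsPrime) (D : Derivation ℤ R R)
    (hD : ∀ x ∈ 𝔭, D x ∈ 𝔭) (hφD : ∀ s, D (φ s) ∈ 𝔭) (hchar : ∀ n : ℕ, n ≠ 0 → (n : R) ∉ 𝔭)
    (x : R) : D x ∈ 𝔭 := by
  classical
  let Pred : ℕ → Prop := fun n => ∃ A : Polynomial S, A.natDegree = n ∧ A.eval₂ φ x ∈ 𝔭 ∧
    φ A.leadingCoeff ∉ 𝔭
  have hex : ∃ n, Pred n := by
    obtain ⟨A, hA, hAx⟩ := hφ x
    refine ⟨A.natDegree, A, rfl, ?_, ?_⟩
    · rw [hAx]; exact 𝔭.zero_mem
    · rw [hA.leadingCoeff, map_one]
      exact fun h => hp.ne_top ((Ideal.eq_top_iff_one _).2 h)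
  obtain ⟨A, hAn, hAx, hAl⟩ := Nat.find_spec hex
  set n := Nat.find hex with hn
  have hn0 : n ≠ 0 := by
    intro h0
    rw [h0] at hAn
    rw [Polynomial.eq_C_of_natDegree_eq_zero hAn] at hAx hAl
    rw [Polynomial.eval₂_C] at hAx
    rw [Polynomial.leadingCoeff_C] at hAl
    exact hAl hAx
  have hformula : ∀ B : Polynomial S,
      D (B.eval₂ φ x) - (Polynomial.derivative B).eval₂ φ x * D x ∈ 𝔭 := by
    intro B
    induction B using Polynomial.induction_on' with
    | add p q hp hq =>
      have : D ((p + q).eval₂ φ x) - (Polynomial.derivative (p + q)).eval₂ φ x * D x =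
          (D (p.eval₂ φ x) - (Polynomial.derivative p).eval₂ φ x * D x) +
          (D (q.eval₂ φ x) - (Polynomial.derivative q).eval₂ φ x * D x) := by
        rw [Polynomial.eval₂_add, map_add, Polynomial.derivative_add, Polynomial.eval₂_add]
        ring
      rw [this]
      exact 𝔭.add_mem hp hq
    | monomial k a =>
      rw [Polynomial.eval₂_monomial, Polynomial.derivative_monomial, Polynomial.eval₂_monomial,
        D.leibniz, D.leibniz_pow]
      have : φ a • k • x ^ (k - 1) • D x + x ^ k • D (φ a) - φ (a * ↑k) * x ^ (k - 1) * D x =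
          x ^ k * D (φ a) := by
        simp only [smul_eq_mul, nsmul_eq_mul, map_mul, map_natCast]
        ring
      rw [this]
      exact 𝔭.mul_mem_left _ (hφD a)
  have h1 : (Polynomial.derivative A).eval₂ φ x * D x ∈ 𝔭 := by
    have h2 := hformula A
    have h3 := hD _ hAx
    have := 𝔭.sub_mem h3 h2
    convert this using 1
    ring
  rcases hp.mem_or_mem h1 with h2 | h2
  · exfalso
    have hcoeff : (Polynomial.derivative A).coeff (n - 1) = A.leadingCoeff * (n : S) := by
      rw [Polynomial.coeff_derivative, Nat.sub_add_cancel (Nat.one_le_iff_ne_zero.2 hn0), ← hAn,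
        Polynomial.coeff_natDegree]
      congr 1
      have : ((A.natDegree - 1 : ℕ) : S) + 1 = ((A.natDegree - 1 + 1 : ℕ) : S) := by push_cast; rfl
      rw [this, hAn, Nat.sub_add_cancel (Nat.one_le_iff_ne_zero.2 hn0)]
    have hnot : φ (A.leadingCoeff * (n : S)) ∉ 𝔭 := by
      rw [map_mul, map_natCast]
      intro h
      rcases hp.mem_or_mem h with h | h
      · exact hAl h
      · exact hchar n hn0 h
    have hne : (Polynomial.derivative A).coeff (n - 1) ≠ 0 := by
      intro h0
      rw [hcoeff] at h0
      rw [h0, map_zero] at hnot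
      exact hnot 𝔭.zero_mem
    have hdeg : (Polynomial.derivative A).natDegree = n - 1 := by
      apply le_antisymm
      · have := Polynomial.natDegree_derivative_le A
        rwa [hAn] at this
      · exact Polynomial.le_natDegree_of_ne_zero hne
    have hP : Pred (n - 1) := by
      refine ⟨Polynomial.derivative A, hdeg, h2, ?_⟩
      rw [Polynomial.leadingCoeff, hdeg, hcoeff]
      exact hnot
    exact Nat.find_min hex (by omega) hP
  · exact h2

end Pool.Agent.Helper98.PCF
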