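import Mathlib

set_option autoImplicit false

namespace Pool.Agent.Helper98.PCF

open MvPolynomial

section
variable {σ R : Type*} [CommRing R]

theorem hc_mul {p q : MvPolynomial σ R} {a b : ℕ} (hp : p.totalDegree ≤ a)
    (hq : q.totalDegree ≤ b) :
    homogeneousComponent (a + b) (p * q) = homogeneousComponent a p * homogeneousComponent b q := by
  classical
  ext m
  rw [coeff_homogeneousComponent, coeff_mul, coeff_mul]
  split_ifs with hm
  · refine Finset.sum_congr rfl fun x hx => ?_
    have hx' : x.1 + x.2 = m := Finset.HasAntidiagonal.mem_antidiagonal.1 hx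
    have hdeg : x.1.degree + x.2.degree = a + b := by
      rw [← hm, ← hx', map_add]
    rw [coeff_homogeneousComponent, coeff_homogeneousComponent]
    rcases lt_trichotomy x.1.degree a with h | h | h
    · have h2 : b < x.2.degree := by omega
      have : coeff x.2 q = 0 := coeff_eq_zero_of_totalDegree_lt (lt_of_le_of_lt hq h2)
      rw [this, if_neg h.ne, mul_zero, zero_mul]
    · have h2 : x.2.degree = b := by omega
      rw [if_pos h, if_pos h2]
    · have : coeff x.1 p = 0 := coeff_eq_zero_of_totalDegree_lt (lt_of_le_of_lt hp h)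
      rw [this, if_neg h.ne', zero_mul, zero_mul]
  · symm
    refine Finset.sum_eq_zero fun x hx => ?_
    have hx' : x.1 + x.2 = m := Finset.HasAntidiagonal.mem_antidiagonal.1 hx
    rw [coeff_homogeneousComponent, coeff_homogeneousComponent]
    by_cases h1 : x.1.degree = a
    · by_cases h2 : x.2.degree = b
      · exfalso; apply hm; rw [← hx', map_add, h1, h2]
      · rw [if_neg h2, mul_zero]
    · rw [if_neg h1, zero_mul]

theorem hc_pow {p : MvPolynomial σ R} {a : ℕ} (hp : p.totalDegree ≤ a) (k : ℕ) :
    homogeneousComponent (a * k) (p ^ k) = homogeneousComponent a p ^ k := by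
  induction k with
  | zero => simp [homogeneousComponent_zero]
  | succ k ih =>
    rw [pow_succ, Nat.mul_succ, hc_mul _ hp, ih, pow_succ]
    refine (totalDegree_pow _ _).trans ?_
    rw [mul_comm]
    exact Nat.mul_le_mul_right k hp

theorem hc_prod {ι : Type*} (s : Finset ι) (p : ι → MvPolynomial σ R) (a : ι → ℕ)
    (hp : ∀ i ∈ s, (p i).totalDegree ≤ a i) :
    homogeneousComponent (∑ i ∈ s, a i) (∏ i ∈ s, p i) =
      ∏ i ∈ s, homogeneousComponent (a i) (p i) := by
  classical
  induction s using Finset.induction_on with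
  | empty => simp [homogeneousComponent_zero]
  | insert i s hi ih =>
    rw [Finset.sum_insert hi, Finset.prod_insert hi, Finset.prod_insert hi,
      hc_mul (hp i (Finset.mem_insert_self i s)), ih fun j hj => hp j (Finset.mem_insert_of_mem hj)]
    refine (totalDegree_finsetProd _ _).trans ?_
    exact Finset.sum_le_sum fun j hj => hp j (Finset.mem_insert_of_mem hj)

theorem hc_of_lt {p : MvPolynomial σ R} {a : ℕ} (hp : p.totalDegree < a) :
    homogeneousComponent a p = 0 := homogeneousComponent_eq_zero _ _ hp

theorem degree_le_totalDegree {p : MvPolynomial σ R} {u : σ →₀ ℕ} (hu : u ∈ p.support) :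
    u.degree ≤ p.totalDegree := by
  have := le_totalDegree hu
  rwa [Finsupp.degree_apply]

theorem aeval_monomial_eq {τ : Type*} (F : τ → MvPolynomial σ R) (u : τ →₀ ℕ) (c : R) [Fintype τ] :
    aeval F (monomial u c) = C c * ∏ j, F j ^ u j := by
  rw [aeval_monomial, Finsupp.prod_fintype]
  · rfl
  · intro i; exact pow_zero _

theorem totalDegree_aeval_monomial_le {τ : Type*} [Fintype τ] {F : τ → MvPolynomial σ R} {d : ℕ}
    (hF : ∀ j, (F j).totalDegree ≤ d) (u : τ →₀ ℕ) (c : R) :
    (aeval F (monomial u c)).totalDegree ≤ d * u.degree := by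
  rw [aeval_monomial_eq]
  refine (totalDegree_mul _ _).trans ?_
  rw [totalDegree_C, zero_add]
  refine (totalDegree_finsetProd _ _).trans ?_
  rw [Finsupp.degree_eq_sum, Finset.mul_sum]
  refine Finset.sum_le_sum fun j _ => ?_
  refine (totalDegree_pow _ _).trans ?_
  rw [mul_comm d]
  exact Nat.mul_le_mul_left _ (hF j)

theorem totalDegree_aeval_le {τ : Type*} [Fintype τ] {F : τ → MvPolynomial σ R} {d : ℕ}
    (hF : ∀ j, (F j).totalDegree ≤ d) (H : MvPolynomial τ R) {m : ℕ} (hH : H.totalDegree ≤ m) :
    (aeval F H).totalDegree ≤ d * m := by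
  conv_lhs => rw [← support_sum_monomial_coeff H]
  rw [map_sum]
  refine (totalDegree_finsetSum_le fun u hu => ?_)
  refine (totalDegree_aeval_monomial_le hF u _).trans ?_
  exact Nat.mul_le_mul_left d ((degree_le_totalDegree hu).trans hH)

theorem hc_aeval {τ : Type*} [Fintype τ] {F : τ → MvPolynomial σ R} {d : ℕ} (hd : 0 < d)
    (hF : ∀ j, (F j).totalDegree ≤ d) (H : MvPolynomial τ R) {m : ℕ} (hH : H.totalDegree ≤ m) :
    homogeneousComponent (d * m) (aeval F H) =
      aeval (fun j => homogeneousComponent d (F j)) (homogeneousComponent m H) := by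
  classical
  conv_lhs => rw [← support_sum_monomial_coeff H]
  rw [map_sum, map_sum, homogeneousComponent_apply, map_sum, Finset.sum_filter]
  refine Finset.sum_congr rfl fun u hu => ?_
  have hu' : u.degree ≤ m := (degree_le_totalDegree hu).trans hH
  split_ifs with h
  · rw [aeval_monomial_eq, aeval_monomial_eq, homogeneousComponent_C_mul]
    congr 1
    have h1 : ∀ j ∈ Finset.univ, (F j ^ u j).totalDegree ≤ d * u j := by
      intro j _
      refine (totalDegree_pow _ _).trans ?_
      rw [mul_comm d]
      exact Nat.mul_le_mul_left _ (hF j)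
    have h2 := hc_prod Finset.univ (fun j => F j ^ u j) (fun j => d * u j) h1
    have h3 : ∑ j, d * u j = d * m := by
      rw [← Finset.mul_sum, ← Finsupp.degree_eq_sum, h]
    rw [h3] at h2
    rw [h2]
    exact Finset.prod_congr rfl fun j _ => hc_pow (hF j) _
  · apply hc_of_lt
    refine lt_of_le_of_lt (totalDegree_aeval_monomial_le hF u _) ?_
    exact Nat.mul_lt_mul_of_pos_left (lt_of_le_of_ne hu' h) hd

end

end Pool.Agent.Helper98.PCF
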