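import Mathlib
import Pool.Agent.Helper98.PCF.Deriv
import Pool.Agent.Helper98.PCF.Top

set_option autoImplicit false

namespace Pool.Agent.Helper98.PCF

open MvPolynomial

section Reg

variable {σ R : Type*} [Fintype σ] [CommRing R]

/-- A family of forms of degree `d` having (in the strong sense) no nontrivial common zero. -/
structure RegForms (d : ℕ) (G : σ → MvPolynomial σ R) : Prop where
  hom : ∀ i, (G i).IsHomogeneous d
  pow : ∃ M, d ≤ M ∧ 1 ≤ M ∧ ∀ i, ∃ A : σ → MvPolynomial σ R,
    (∀ j, (A j).IsHomogeneous (M - d)) ∧ X i ^ M = ∑ j, A j * G j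

theorem RegForms.map {S : Type*} [CommRing S] {d : ℕ} {G : σ → MvPolynomial σ R}
    (hG : RegForms d G) (f : R →+* S) : RegForms d (fun i => MvPolynomial.map f (G i)) := by
  refine ⟨fun i => (hG.hom i).map f, ?_⟩
  obtain ⟨M, h1, h2, h3⟩ := hG.pow
  refine ⟨M, h1, h2, fun i => ?_⟩
  obtain ⟨A, hA, hAi⟩ := h3 i
  refine ⟨fun j => MvPolynomial.map f (A j), fun j => (hA j).map f, ?_⟩
  have := congrArg (MvPolynomial.map f) hAi
  rw [map_pow, map_X, map_sum] at this
  rw [this]
  exact Finset.sum_congr rfl fun j _ => by rw [map_mul]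

/-- Evaluation zero: a regular family vanishes only at the origin. -/
theorem RegForms.eq_zero_of_aeval {S : Type*} [CommRing S] [IsDomain S] [Algebra R S] {d : ℕ}
    {G : σ → MvPolynomial σ R} (hG : RegForms d G) (x : σ → S) (hx : ∀ i, aeval x (G i) = 0) :
    x = 0 := by
  obtain ⟨M, h1, h2, h3⟩ := hG.pow
  funext i
  obtain ⟨A, hA, hAi⟩ := h3 i
  have := congrArg (aeval x) hAi
  rw [map_pow, aeval_X, map_sum] at this
  have h4 : ∑ j, aeval x (A j * G j) = 0 :=
    Finset.sum_eq_zero fun j _ => by rw [map_mul, hx j, mul_zero]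
  rw [h4] at this
  exact pow_eq_zero_iff (by omega) |>.1 this

end Reg

section Val

variable {σ κ K : Type*} [Fintype σ] [CommRing κ] [Field K] [Algebra κ K]
  {Γ₀ : Type*} [LinearOrderedCommGroupWithZero Γ₀] (v : Valuation K Γ₀)

theorem val_monomial_le (hκ : ∀ c : κ, v (algebraMap κ K c) ≤ 1) {x : σ → K} {γ : Γ₀}
    (hx : ∀ i, v (x i) ≤ γ) (u : σ →₀ ℕ) (c : κ) :
    v (aeval x (monomial u c)) ≤ γ ^ u.degree := by
  rw [aeval_monomial, map_mul, Finsupp.prod_fintype _ _ (fun i => pow_zero _), map_prod,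
    Finsupp.degree_eq_sum, ← Finset.prod_pow_eq_pow_sum]
  refine (mul_le_mul' (hκ c) (Finset.prod_le_prod' fun i _ => ?_)).trans (one_mul _).le
  rw [map_pow]
  exact pow_le_pow_left' (hx i) _

theorem val_aeval_le (hκ : ∀ c : κ, v (algebraMap κ K c) ≤ 1) {x : σ → K} {γ : Γ₀}
    (hx : ∀ i, v (x i) ≤ γ) {p : MvPolynomial σ κ} {e : ℕ} (hp : p.IsHomogeneous e) :
    v (aeval x p) ≤ γ ^ e := by
  rw [← support_sum_monomial_coeff p, map_sum]
  refine v.map_sum_le fun u hu => ?_
  have hdeg : u.degree = e := by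
    have := hp (mem_support_iff.1 hu)
    rw [← this, Finsupp.degree_eq_weight_one]
    rfl
  rw [← hdeg]
  exact val_monomial_le v hκ hx u _

theorem val_aeval_le' (hκ : ∀ c : κ, v (algebraMap κ K c) ≤ 1) {x : σ → K} {γ : Γ₀}
    (hx : ∀ i, v (x i) ≤ γ) (hγ : 1 ≤ γ) {p : MvPolynomial σ κ} {e : ℕ}
    (hp : p.totalDegree ≤ e) :
    v (aeval x p) ≤ γ ^ e := by
  rw [← support_sum_monomial_coeff p, map_sum]
  refine v.map_sum_le fun u hu => ?_
  exact (val_monomial_le v hκ hx u _).trans
    (pow_le_pow_right' hγ ((degree_le_totalDegree hu).trans hp))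

/-- Good reduction: if `F = G + lower terms` takes integral values at `x`, then `x` is
integral. -/
theorem integral_of_integral_values (hκ : ∀ c : κ, v (algebraMap κ K c) ≤ 1) {d : ℕ}
    (hd : 0 < d) {G L : σ → MvPolynomial σ κ} (hG : RegForms d G)
    (hL : ∀ i, (L i).totalDegree < d) {x : σ → K}
    (hx : ∀ i, v (aeval x (G i + L i)) ≤ 1) (i : σ) : v (x i) ≤ 1 := by
  classical
  obtain ⟨i₀, -, hi₀⟩ := Finset.exists_max_image Finset.univ (fun j => v (x j))
    ⟨i, Finset.mem_univ i⟩
  refine (hi₀ i (Finset.mem_univ i)).trans ?_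
  by_contra hlt
  push Not at hlt
  set γ := v (x i₀) with hγ
  have hγx : ∀ j, v (x j) ≤ γ := fun j => hi₀ j (Finset.mem_univ j)
  obtain ⟨M, hdM, hM, h3⟩ := hG.pow
  obtain ⟨A, hA, hAi⟩ := h3 i₀
  have h4 := congrArg (aeval x) hAi
  rw [map_pow, aeval_X, map_sum] at h4
  have h5 : v (x i₀) ^ M ≤ γ ^ (M - 1) := by
    rw [← map_pow, h4]
    refine v.map_sum_le fun j _ => ?_
    rw [map_mul, map_mul]
    have h6 : v (aeval x (G j)) ≤ γ ^ (d - 1) := by
      have : aeval x (G j) = aeval x (G j + L j) - aeval x (L j) := by rw [map_add]; ring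
      rw [this]
      refine (v.map_sub _ _).trans (max_le ?_ ?_)
      · exact (hx j).trans (one_le_pow_of_one_le' hlt.le _)
      · exact val_aeval_le' v hκ hγx hlt.le (by have := hL j; omega)
    have h7 := val_aeval_le v hκ hγx (hA j)
    refine (mul_le_mul' h7 h6).trans ?_
    rw [← pow_add]
    exact (by congr 1; omega : γ ^ (M - d + (d - 1)) = γ ^ (M - 1)).le
  rw [← hγ] at h5
  have h6 : γ ^ (M - 1) < γ ^ M := pow_lt_pow_right₀ hlt (by omega)
  exact absurd h5 (not_le.2 h6)

end Val

section Integral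

variable {σ κ : Type*} [Fintype σ] [Field κ]

/-- The polynomial ring is integral over the subring generated by `F = G + lower terms`. -/
theorem isIntegral_aeval {d : ℕ} (hd : 0 < d) {G L : σ → MvPolynomial σ κ} (hG : RegForms d G)
    (hL : ∀ i, (L i).totalDegree < d) :
    ((aeval (fun i => G i + L i) : MvPolynomial σ κ →ₐ[κ] MvPolynomial σ κ) :
      MvPolynomial σ κ →+* MvPolynomial σ κ).IsIntegral := by
  classical
  set F : σ → MvPolynomial σ κ := fun i => G i + L i with hF
  set φ : MvPolynomial σ κ →ₐ[κ] MvPolynomial σ κ := aeval F with hφ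
  let K := FractionRing (MvPolynomial σ κ)
  let ι : MvPolynomial σ κ →+* K := algebraMap _ _
  have hι : Function.Injective ι := IsFractionRing.injective _ _
  have hX : ∀ i, (φ : MvPolynomial σ κ →+* MvPolynomial σ κ).IsIntegralElem (X i) := by
    intro i
    let s : Set K := Set.range (fun c : κ => algebraMap κ K c) ∪ Set.range (fun i => ι (F i))
    have hmem : ι (X i) ∈ (integralClosure (Subring.closure s) K).toSubring := by
      rw [← iInf_valuationSubring_superset, Subring.mem_iInf]
      rintro ⟨V, hV⟩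
      show ι (X i) ∈ V
      rw [← V.valuation_le_one_iff]
      have h := integral_of_integral_values (σ := σ) (κ := κ) (K := K) V.valuation
        (fun c => by
          rw [V.valuation_le_one_iff]
          exact hV (Or.inl ⟨c, rfl⟩)) hd hG hL (x := fun j => ι (X j)) ?_ i
      · exact h
      · intro j
        rw [V.valuation_le_one_iff]
        have : aeval (fun j => ι (X j)) (G j + L j) = ι (F j) := by
          have h1 : (aeval (fun j => ι (X j)) : MvPolynomial σ κ →ₐ[κ] K) =
              IsScalarTower.toAlgHom κ (MvPolynomial σ κ) K := by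
            apply MvPolynomial.algHom_ext
            intro j
            rw [aeval_X]; rfl
          rw [h1]; rfl
        rw [this]
        exact hV (Or.inr ⟨j, rfl⟩)
    have hint : IsIntegral (Subring.closure s) (ι (X i)) := hmem
    -- transfer to the range of `ι ∘ φ`
    have hle : Subring.closure s ≤ (ι.comp (φ : MvPolynomial σ κ →+* MvPolynomial σ κ)).range := by
      rw [Subring.closure_le]
      rintro _ (⟨c, rfl⟩ | ⟨j, rfl⟩)
      · refine ⟨C c, ?_⟩
        show ι (φ (C c)) = algebraMap κ K c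
        rw [hφ, aeval_C]
        rfl
      · refine ⟨X j, ?_⟩
        show ι (φ (X j)) = ι (F j)
        rw [hφ, aeval_X]
    obtain ⟨p, hp, hpx⟩ := hint
    -- lift the coefficients
    let T := (ι.comp (φ : MvPolynomial σ κ →+* MvPolynomial σ κ))
    let q : Polynomial T.range := p.map (Subring.inclusion hle)
    have hq : q.Monic := hp.map _
    obtain ⟨r, hr, -, hrm⟩ := Polynomial.lifts_and_degree_eq_and_monic
      (f := T.rangeRestrict) (p := q) (by
        rw [Polynomial.lifts_iff_coeff_lifts]
        intro n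
        obtain ⟨y, hy⟩ := T.rangeRestrict_surjective (q.coeff n)
        exact ⟨y, hy⟩) hq
    refine ⟨r, hrm, ?_⟩
    apply hι
    rw [map_zero, Polynomial.hom_eval₂]
    have h1 : Polynomial.eval₂ T (ι (X i)) r =
        Polynomial.eval₂ (T.range.subtype) (ι (X i)) q := by
      rw [← hr, Polynomial.eval₂_map]
      rfl
    have h2 : Polynomial.eval₂ (T.range.subtype) (ι (X i)) q =
        Polynomial.eval₂ (algebraMap (Subring.closure s) K) (ι (X i)) p := by
      rw [Polynomial.eval₂_map]
      rfl
    exact h1.trans (h2.trans hpx)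
  intro p
  induction p using MvPolynomial.induction_on with
  | C a =>
    have : (C a : MvPolynomial σ κ) = (φ : MvPolynomial σ κ →+* MvPolynomial σ κ) (C a) := by
      show C a = φ (C a)
      rw [hφ, aeval_C]; rfl
    rw [this]
    exact RingHom.isIntegralElem_map _
  | add p q hp hq => exact RingHom.IsIntegralElem.add _ hp hq
  | mul_X p i hp => exact RingHom.IsIntegralElem.mul _ hp (hX i)

end Integral

end Pool.Agent.Helper98.PCF
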