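import Mathlib
import Pool.Agent.Helper98.PCF.Reg

set_option autoImplicit false

namespace Pool.Agent.Helper98.PCF

open MvPolynomial

section Jac

variable {σ R : Type*} [Fintype σ] [DecidableEq σ] [CommRing R]

/-- Jacobian matrix of a polynomial map. -/
noncomputable def jac (F : σ → MvPolynomial σ R) : Matrix σ σ (MvPolynomial σ R) :=
  Matrix.of fun i j => pderiv j (F i)

theorem jac_map {S : Type*} [CommRing S] (f : R →+* S) (F : σ → MvPolynomial σ R) :
    jac (fun i => map f (F i)) = (jac F).map (map f) := by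
  ext1 i j
  simp [jac, pderiv_map]

theorem det_jac_map {S : Type*} [CommRing S] (f : R →+* S) (F : σ → MvPolynomial σ R) :
    (jac (fun i => map f (F i))).det = map f (jac F).det := by
  rw [jac_map, ← RingHom.mapMatrix_apply, ← RingHom.map_det]

/-- The derivation with coefficient vector `W`. -/
noncomputable def vf (W : σ → MvPolynomial σ R) :
    Derivation R (MvPolynomial σ R) (MvPolynomial σ R) :=
  mkDerivation R W

theorem vf_X (W : σ → MvPolynomial σ R) (i : σ) : vf W (X i) = W i := mkDerivation_X _ _ _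

theorem vf_apply (W : σ → MvPolynomial σ R) (p : MvPolynomial σ R) :
    vf W p = ∑ j, pderiv j p * W j := by
  have h := deriv_aeval (vf W) X p
  simp only [aeval_X_left, AlgHom.id_apply] at h
  rw [h]
  exact Finset.sum_congr rfl fun j _ => by rw [vf_X]

theorem vf_eq_mulVec (W F : σ → MvPolynomial σ R) (i : σ) :
    vf W (F i) = (jac F).mulVec W i := by
  rw [vf_apply]; rfl

end Jac

theorem totalDegree_pderiv_le {σ R : Type*} [CommRing R] (p : MvPolynomial σ R) (j : σ) :
    (pderiv j p).totalDegree ≤ p.totalDegree - 1 := by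
  classical
  refine Finset.sup_le fun m hm => ?_
  have h1 : coeff (m + Finsupp.single j 1) p ≠ 0 := by
    intro h0
    apply mem_support_iff.1 hm
    rw [coeff_pderiv, h0, zero_mul]
  have h2 := le_totalDegree (mem_support_iff.2 h1)
  have h3 : ((m + Finsupp.single j 1).sum fun _ e => e) = (m.sum fun _ e => e) + 1 := by
    rw [Finsupp.sum_add_index' (fun _ => rfl) (fun _ _ _ => rfl), Finsupp.sum_single_index rfl]
  omega

section Field

variable {σ κ : Type*} [Fintype σ] [DecidableEq σ] [Field κ] [CharZero κ]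

/-- Everything about a regular polynomial map `F = G + lower terms`. -/
structure RegMap (d : ℕ) (G L : σ → MvPolynomial σ κ) : Prop where
  pos : 0 < d
  reg : RegForms d G
  low : ∀ i, (L i).totalDegree < d

theorem natCast_notMem_of_prime (𝔭 : Ideal (MvPolynomial σ κ)) (hp : 𝔭.IsPrime) (n : ℕ)
    (hn : n ≠ 0) : (n : MvPolynomial σ κ) ∉ 𝔭 := by
  intro h
  apply hp.ne_top
  refine Ideal.eq_top_of_isUnit_mem _ h ?_
  have : (n : MvPolynomial σ κ) = C (n : κ) := (map_natCast C n).symm
  rw [this]
  exact (IsUnit.mk0 (n : κ) (Nat.cast_ne_zero.2 hn)).map C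

theorem vf_mem_of_regMap {d : ℕ} {G L : σ → MvPolynomial σ κ} (h : RegMap d G L)
    (𝔭 : Ideal (MvPolynomial σ κ)) (hp : 𝔭.IsPrime) (W : σ → MvPolynomial σ κ)
    (hD : ∀ x ∈ 𝔭, vf W x ∈ 𝔭) (hF : ∀ i, vf W (G i + L i) ∈ 𝔭) (i : σ) : W i ∈ 𝔭 := by
  have h1 := deriv_mem_of_integral
    ((aeval (fun i => G i + L i) : MvPolynomial σ κ →ₐ[κ] MvPolynomial σ κ) :
      MvPolynomial σ κ →+* MvPolynomial σ κ) (isIntegral_aeval h.pos h.reg h.low) 𝔭 hp
    ((vf W).restrictScalars ℤ) hD ?_ (natCast_notMem_of_prime 𝔭 hp) (X i)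
  · have h2 : vf W (X i) = W i := vf_X W i
    rw [← h2]
    exact h1
  · intro s
    show vf W (aeval (fun i => G i + L i) s) ∈ 𝔭
    rw [deriv_aeval]
    exact 𝔭.sum_mem fun j _ => 𝔭.mul_mem_left _ (hF j)

theorem det_jac_ne_zero {d : ℕ} {G L : σ → MvPolynomial σ κ} (h : RegMap d G L) :
    (jac (fun i => G i + L i)).det ≠ 0 := by
  intro h0
  obtain ⟨W, hW, hWJ⟩ := Matrix.exists_mulVec_eq_zero_iff.2 h0
  apply hW
  funext i
  have := vf_mem_of_regMap h ⊥ Ideal.isPrime_bot W ?_ ?_ i
  · simpa using this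
  · intro x hx
    rw [Ideal.mem_bot] at hx
    rw [hx, map_zero]; exact Ideal.zero_mem _
  · intro i
    rw [vf_eq_mulVec W (fun i => G i + L i), hWJ]
    exact Ideal.zero_mem _

theorem mulVec_eq_zero {A : Matrix σ σ (MvPolynomial σ κ)} (hA : A.det ≠ 0)
    {W : σ → MvPolynomial σ κ} (h : A.mulVec W = 0) : W = 0 := by
  by_contra hW
  exact hA (Matrix.exists_mulVec_eq_zero_iff.1 ⟨W, hW, h⟩)

theorem vecMul_eq_zero {A : Matrix σ σ (MvPolynomial σ κ)} (hA : A.det ≠ 0)
    {W : σ → MvPolynomial σ κ} (h : Matrix.vecMul W A = 0) : W = 0 := by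
  by_contra hW
  exact hA (Matrix.exists_vecMul_eq_zero_iff.1 ⟨W, hW, h⟩)

omit [DecidableEq σ] [Fintype σ] in
/-- in characteristic zero, a polynomial with vanishing partial derivatives is constant. -/
theorem eq_C_of_pderiv_eq_zero {p : MvPolynomial σ κ} (h : ∀ j, pderiv j p = 0) :
    p = C (coeff 0 p) := by
  classical
  ext m
  rw [coeff_C]
  split_ifs with hm
  · rw [hm]
  · obtain ⟨j, hj⟩ : ∃ j, m j ≠ 0 := by
      by_contra hcon
      push Not at hcon
      exact hm (Finsupp.ext hcon).symm
    have h1 := coeff_pderiv (i := j) p (m - Finsupp.single j 1)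
    have h3 : (m - Finsupp.single j 1 + Finsupp.single j 1 : σ →₀ ℕ) = m := by
      apply tsub_add_cancel_of_le
      rw [Finsupp.single_le_iff]
      omega
    rw [h j, coeff_zero, h3] at h1
    have h2 : ∀ n : ℕ, (n : κ) + 1 ≠ 0 := fun n => by exact_mod_cast Nat.succ_ne_zero n
    exact (mul_eq_zero.1 h1.symm).resolve_right (h2 _)

theorem aeval_injective {d : ℕ} {G L : σ → MvPolynomial σ κ} (h : RegMap d G L) (n : ℕ) :
    ∀ p : MvPolynomial σ κ, p.totalDegree ≤ n → aeval (fun i => G i + L i) p = 0 → p = 0 := by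
  set F : σ → MvPolynomial σ κ := fun i => G i + L i with hF
  have hdet := det_jac_ne_zero h
  -- derivatives
  have key : ∀ p : MvPolynomial σ κ, aeval F p = 0 → ∀ j, aeval F (pderiv j p) = 0 := by
    intro p hp
    have h1 : Matrix.vecMul (fun j => aeval F (pderiv j p)) (jac F) = 0 := by
      funext k
      have h2 := deriv_aeval (pderiv k) F p
      rw [hp, map_zero] at h2
      exact h2.symm
    have h2 := vecMul_eq_zero hdet h1
    exact fun j => congrFun h2 j
  have hconst : ∀ p : MvPolynomial σ κ, aeval F p = 0 → (∀ j, pderiv j p = 0) → p = 0 := by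
    intro p hp hj
    have h1 := eq_C_of_pderiv_eq_zero hj
    rw [h1, aeval_C] at hp
    rw [h1]
    exact hp
  induction n with
  | zero =>
    intro p hp hp0
    refine hconst p hp0 fun j => ?_
    rw [(totalDegree_eq_zero_iff_eq_C).1 (Nat.le_zero.1 hp), pderiv_C]
  | succ n ih =>
    intro p hp hp0
    refine hconst p hp0 fun j => ih _ ?_ (key p hp0 j)
    exact (totalDegree_pderiv_le p j).trans (by omega)

omit [DecidableEq σ] [CharZero κ] in
theorem vf_X_apply_coeff (p : MvPolynomial σ κ) (m : σ →₀ ℕ) :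
    coeff m (∑ j, pderiv j p * X j) = m.degree * coeff m p := by
  classical
  induction p using MvPolynomial.induction_on' with
  | add p q hp hq =>
    rw [coeff_add, mul_add, ← hp, ← hq, ← coeff_add, ← Finset.sum_add_distrib]
    congr 1
    exact Finset.sum_congr rfl fun j _ => by rw [map_add, add_mul]
  | monomial n a =>
    have h1 : ∑ j, pderiv j (monomial n a) * X j = (n.degree : ℕ) • monomial n a := by
      rw [Finsupp.degree_eq_sum, Finset.sum_smul]
      refine Finset.sum_congr rfl fun j _ => ?_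
      rw [mul_comm, X_mul_pderiv_monomial]
    rw [h1, coeff_smul, coeff_monomial]
    split_ifs with h
    · rw [h, nsmul_eq_mul]
    · rw [smul_zero, mul_zero]

omit [DecidableEq σ] in
/-- converse of Euler's identity -/
theorem isHomogeneous_of_euler {p : MvPolynomial σ κ} {d : ℕ}
    (h : ∑ j, pderiv j p * X j = (d : MvPolynomial σ κ) * p) : p.IsHomogeneous d := by
  intro m hm
  have h1 := vf_X_apply_coeff p m
  have h2 : ((d : ℕ) : MvPolynomial σ κ) * p = C (d : κ) * p := by rw [map_natCast]
  rw [h, h2, coeff_C_mul] at h1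
  have h3 : ((d : κ) - m.degree) * coeff m p = 0 := by rw [sub_mul, h1, sub_self]
  have h4 := (mul_eq_zero.1 h3).resolve_right hm
  have h5 : (d : κ) = (m.degree : ℕ) := by linear_combination h4
  have h6 : d = m.degree := Nat.cast_injective h5
  rw [h6, Finsupp.degree_eq_weight_one]
  rfl

omit [DecidableEq σ] [Fintype σ] [CharZero κ] in
theorem hc_totalDegree_ne_zero {p : MvPolynomial σ κ} (hp : p ≠ 0) :
    homogeneousComponent p.totalDegree p ≠ 0 := by
  classical
  have hne : p.support.Nonempty := by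
    rwa [Finset.nonempty_iff_ne_empty, Ne, support_eq_empty]
  obtain ⟨m, hm, hmm⟩ := Finset.exists_mem_eq_sup p.support hne (fun s => s.sum fun _ e => e)
  have hdeg : m.degree = p.totalDegree := by
    rw [Finsupp.degree_apply]
    exact hmm.symm
  intro h0
  have h1 := congrArg (coeff m) h0
  rw [coeff_homogeneousComponent, if_pos hdeg, coeff_zero] at h1
  exact mem_support_iff.1 hm h1

omit [DecidableEq σ] [CharZero κ] in
theorem hc_add_of_lt {G L : MvPolynomial σ κ} {d : ℕ} (hG : G.IsHomogeneous d)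
    (hL : L.totalDegree < d) : homogeneousComponent d (G + L) = G := by
  rw [map_add, hc_of_lt hL, add_zero, homogeneousComponent_eq_self hG]

theorem det_dvd {d : ℕ} {G L : σ → MvPolynomial σ κ} (h : RegMap d G L) {B : MvPolynomial σ κ}
    {m M : ℕ} (hB : B.IsHomogeneous m) (hB0 : B ≠ 0)
    (hdvd : (jac (fun i => G i + L i)).det ∣ (aeval (fun i => G i + L i) B) ^ M) (i : σ) :
    (jac (fun i => G i + L i)).det ∣
      (jac (fun i => G i + L i)).adjugate.mulVec (fun i => G i + L i) i := by
  classical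
  set F : σ → MvPolynomial σ κ := fun i => G i + L i with hF
  set J := (jac F).det with hJ
  set W := (jac F).adjugate.mulVec F with hW
  have hJ0 : J ≠ 0 := det_jac_ne_zero h
  have hWF : ∀ i, vf W (F i) = J * F i := by
    intro i
    rw [vf_eq_mulVec, hW, Matrix.mulVec_mulVec, Matrix.mul_adjugate, Matrix.smul_mulVec,
      Matrix.one_mulVec]
    rfl
  let _ : StrongNormalizationMonoid (MvPolynomial σ κ) :=
    UniqueFactorizationMonoid.strongNormalizationMonoid
  let _ : NormalizedGCDMonoid (MvPolynomial σ κ) :=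
    UniqueFactorizationMonoid.toNormalizedGCDMonoid _
  let f : Option σ → MvPolynomial σ κ := fun o => o.elim J W
  obtain ⟨g, hg, hg1⟩ := Finset.extract_gcd (s := (Finset.univ : Finset (Option σ))) f
    ⟨none, Finset.mem_univ _⟩
  set c := (Finset.univ : Finset (Option σ)).gcd f with hc
  set J' := g none with hJ'
  set W' : σ → MvPolynomial σ κ := fun i => g (some i) with hW'
  have h1 : J = c * J' := hg none (Finset.mem_univ _)
  have h2 : ∀ i, W i = c * W' i := fun i => hg (some i) (Finset.mem_univ _)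
  have hc0 : c ≠ 0 := by
    intro h0; rw [h0, zero_mul] at h1; exact hJ0 h1
  have hJ'0 : J' ≠ 0 := by
    intro h0; rw [h0, mul_zero] at h1; exact hJ0 h1
  have hvf : ∀ x, vf W x = c * vf W' x := by
    intro x
    rw [vf_apply, vf_apply, Finset.mul_sum]
    refine Finset.sum_congr rfl fun j _ => ?_
    rw [h2]; ring
  have hW'F : ∀ i, vf W' (F i) = J' * F i := by
    intro i
    apply mul_left_cancel₀ hc0
    rw [← hvf, hWF, h1]; ring
  have hunit : IsUnit J' := by
    by_contra hnu
    obtain ⟨p, hpirr, hpJ'⟩ := WfDvdMonoid.exists_irreducible_factor hnu hJ'0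
    have hp : Prime p := UniqueFactorizationMonoid.irreducible_iff_prime.1 hpirr
    set β := aeval F B with hβ
    have hβ0 : β ≠ 0 := by
      intro h0
      exact hB0 (aeval_injective h B.totalDegree B le_rfl h0)
    have hpβ : p ∣ β := by
      have : p ∣ β ^ M := (hpJ'.trans (Dvd.intro_left c h1.symm)).trans hdvd
      exact hp.dvd_of_dvd_pow this
    have hDβ : vf W' β = J' * ((m : MvPolynomial σ κ) * β) := by
      rw [hβ, deriv_aeval]
      have h3 : ∀ j, aeval F (pderiv j B) * vf W' (F j) = J' * aeval F (X j * pderiv j B) := by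
        intro j
        rw [hW'F, map_mul, aeval_X]; ring
      rw [Finset.sum_congr rfl fun j _ => h3 j, ← Finset.mul_sum, ← map_sum,
        hB.sum_X_mul_pderiv, map_nsmul, nsmul_eq_mul]
    obtain ⟨e, u, hpu, hβeq⟩ := WfDvdMonoid.max_power_factor hβ0 hpirr
    have he : e ≠ 0 := by
      rintro rfl
      rw [pow_zero, one_mul] at hβeq
      exact hpu (hβeq ▸ hpβ)
    obtain ⟨e', rfl⟩ := Nat.exists_eq_succ_of_ne_zero he
    have hDp : p ∣ vf W' p := by
      have h4 : vf W' (p ^ (e' + 1) * u) = J' * ((m : MvPolynomial σ κ) * (p ^ (e' + 1) * u)) := by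
        rw [← hβeq]; exact hDβ
      rw [Derivation.leibniz, Derivation.leibniz_pow] at h4
      simp only [smul_eq_mul, nsmul_eq_mul, Nat.add_sub_cancel] at h4
      have h5 : p ^ e' * (u * (((e' + 1 : ℕ) : MvPolynomial σ κ) * vf W' p)) =
          p ^ e' * (p * (J' * (m * u) - vf W' u)) := by
        rw [pow_succ] at h4
        linear_combination h4
      have h6 := mul_left_cancel₀ (pow_ne_zero e' hp.ne_zero) h5
      have h7 : p ∣ u * (((e' + 1 : ℕ) : MvPolynomial σ κ) * vf W' p) := ⟨_, h6⟩
      have h8 := (hp.dvd_or_dvd h7).resolve_left hpu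
      refine (hp.dvd_or_dvd h8).resolve_left ?_
      intro h9
      have h10 : ((Ideal.span {p} : Ideal (MvPolynomial σ κ))).IsPrime :=
        (Ideal.span_singleton_prime hp.ne_zero).2 hp
      exact natCast_notMem_of_prime _ h10 (e' + 1) (Nat.succ_ne_zero _)
        (Ideal.mem_span_singleton.2 h9)
    have hprime : (Ideal.span {p} : Ideal (MvPolynomial σ κ)).IsPrime :=
      (Ideal.span_singleton_prime hp.ne_zero).2 hp
    have hall : ∀ i, p ∣ W' i := by
      intro i
      rw [← Ideal.mem_span_singleton]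
      refine vf_mem_of_regMap h _ hprime W' ?_ ?_ i
      · intro x hx
        obtain ⟨y, rfl⟩ := Ideal.mem_span_singleton.1 hx
        rw [Derivation.leibniz, Ideal.mem_span_singleton]
        simp only [smul_eq_mul]
        exact dvd_add (Dvd.intro _ rfl) (Dvd.dvd.mul_left hDp _)
      · intro i
        rw [Ideal.mem_span_singleton]
        have := hW'F i
        rw [hF] at this
        simp only at this
        rw [this]
        exact Dvd.dvd.mul_right hpJ' _
    have hp1 : p ∣ (Finset.univ : Finset (Option σ)).gcd g := by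
      rw [Finset.dvd_gcd_iff]
      intro o _
      cases o with
      | none => exact hpJ'
      | some i => exact hall i
    rw [hg1] at hp1
    exact hp.not_isUnit (isUnit_of_dvd_one hp1)
  rw [h1, h2 i]
  exact mul_dvd_mul_left c (hunit.dvd)

end Field

end Pool.Agent.Helper98.PCF
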