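import Mathlib
import Pool.Agent.Helper98.PCF.Cover

set_option autoImplicit false

namespace Pool.Agent.Helper98.PCF

open MvPolynomial

variable {σ κ : Type*} [Fintype σ] [DecidableEq σ] [Field κ] [CharZero κ]

omit [DecidableEq σ] [CharZero κ] [Fintype σ] in
theorem pderiv_low {L : MvPolynomial σ κ} {d : ℕ} (hL : L.totalDegree < d) (j : σ) :
    homogeneousComponent (d - 1) (pderiv j L) = 0 := by
  rcases Nat.eq_zero_or_pos L.totalDegree with h0 | h0
  · rw [(totalDegree_eq_zero_iff_eq_C).1 h0, pderiv_C, map_zero]
  · apply hc_of_lt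
    have := totalDegree_pderiv_le L j
    omega

theorem RegMap.top {d : ℕ} {G L : σ → MvPolynomial σ κ} (h : RegMap d G L) :
    RegMap d G (fun _ => (0 : MvPolynomial σ κ)) :=
  ⟨h.pos, h.reg, fun _ => by simpa using h.pos⟩

/-- A polynomial vector field `U` such that `D_U F` has degree `< d` is constant. -/
theorem const_of_low {d : ℕ} {G L : σ → MvPolynomial σ κ} (h : RegMap d G L)
    (U : σ → MvPolynomial σ κ) (hU : ∀ i, (vf U (G i + L i)).totalDegree < d) (j : σ) :
    (U j).totalDegree = 0 := by
  classical
  obtain ⟨j₀, -, hj₀⟩ := Finset.exists_max_image Finset.univ (fun j => (U j).totalDegree)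
    ⟨j, Finset.mem_univ j⟩
  set r := (U j₀).totalDegree with hr
  have hle : ∀ j, (U j).totalDegree ≤ r := fun j => hj₀ j (Finset.mem_univ j)
  rcases Nat.eq_zero_or_pos r with h0 | h0
  · have := hle j; omega
  exfalso
  have hd := h.pos
  have hdet : (jac G).det ≠ 0 := by
    have := det_jac_ne_zero h.top
    simpa using this
  have key : (jac G).mulVec (fun j => homogeneousComponent r (U j)) = 0 := by
    funext i
    have h1 : homogeneousComponent (r + (d - 1)) (vf U (G i + L i)) = 0 := by
      apply hc_of_lt
      have := hU i
      omega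
    rw [vf_apply, map_sum] at h1
    rw [Pi.zero_apply, ← h1]
    refine Finset.sum_congr rfl fun j _ => ?_
    have hd1 : (pderiv j (G i + L i)).totalDegree ≤ d - 1 := by
      refine (totalDegree_pderiv_le _ _).trans ?_
      have h2 : (G i + L i).totalDegree ≤ d := by
        refine (totalDegree_add _ _).trans (max_le (h.reg.hom i).totalDegree_le ?_)
        exact (h.low i).le
      omega
    rw [mul_comm (pderiv j (G i + L i)), hc_mul (hle j) hd1, map_add, map_add, pderiv_low (h.low i),
      add_zero, homogeneousComponent_eq_self (h.reg.hom i).pderiv]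
    show pderiv j (G i) * homogeneousComponent r (U j) = _
    ring
  have h2 := congrFun (mulVec_eq_zero hdet key) j₀
  have hne : U j₀ ≠ 0 := by
    intro h3
    rw [hr, h3, totalDegree_zero] at h0
    exact lt_irrefl _ h0
  exact hc_totalDegree_ne_zero hne h2

/-- **The covering lemma.**  If all critical values of the regular polynomial map `F = G + L` lie
in a cone `{B = 0}`, then `F` is a translate of its leading part. -/
theorem cover {d : ℕ} {G L : σ → MvPolynomial σ κ} (h : RegMap d G L) {B : MvPolynomial σ κ}
    {m M : ℕ} (hB : B.IsHomogeneous m) (hB0 : B ≠ 0)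
    (hdvd : (jac (fun i => G i + L i)).det ∣ (aeval (fun i => G i + L i) B) ^ M) :
    ∃ b : σ → κ, ∀ i, G i + L i = aeval (fun j => X j + C (b j)) (G i) := by
  classical
  set F : σ → MvPolynomial σ κ := fun i => G i + L i with hF
  set J := (jac F).det with hJ
  have hJ0 : J ≠ 0 := det_jac_ne_zero h
  choose V hV using det_dvd h hB hB0 hdvd
  set W := (jac F).adjugate.mulVec F with hW
  have hWF : ∀ i, vf W (F i) = J * F i := by
    intro i
    rw [vf_eq_mulVec, hW, Matrix.mulVec_mulVec, Matrix.mul_adjugate, Matrix.smul_mulVec,
      Matrix.one_mulVec]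
    rfl
  have hVF : ∀ i, vf V (F i) = F i := by
    intro i
    apply mul_left_cancel₀ hJ0
    rw [← hWF, vf_apply, vf_apply, Finset.mul_sum]
    refine Finset.sum_congr rfl fun j _ => ?_
    have : W j = J * V j := hV j
    rw [this]; ring
  -- the vector field `U = d V - X` is constant
  set U : σ → MvPolynomial σ κ := fun j => (d : MvPolynomial σ κ) * V j - X j with hU
  have hUF : ∀ i, vf U (F i) = (d : MvPolynomial σ κ) * L i - ∑ j, pderiv j (L i) * X j := by
    intro i
    have h1 : vf U (F i) = (d : MvPolynomial σ κ) * vf V (F i) - ∑ j, pderiv j (F i) * X j := by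
      rw [vf_apply, vf_apply, Finset.mul_sum, ← Finset.sum_sub_distrib]
      refine Finset.sum_congr rfl fun j _ => ?_
      rw [hU]; ring
    have h2 : ∑ j, pderiv j (F i) * X j = (d : MvPolynomial σ κ) * G i +
        ∑ j, pderiv j (L i) * X j := by
      have h3 := (h.reg.hom i).sum_X_mul_pderiv
      rw [nsmul_eq_mul] at h3
      rw [← h3, ← Finset.sum_add_distrib]
      refine Finset.sum_congr rfl fun j _ => ?_
      rw [hF, map_add]; ring
    rw [h1, hVF, h2, hF]
    ring
  have hUlow : ∀ i, (vf U (G i + L i)).totalDegree < d := by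
    intro i
    have hd := h.pos
    have h0 : (vf U (G i + L i)).totalDegree ≤ d - 1 := by
      have := hUF i
      rw [hF] at this
      simp only at this
      rw [this]
      refine (totalDegree_sub _ _).trans (max_le ?_ ?_)
      · have h1 : ((d : ℕ) : MvPolynomial σ κ) = C (d : κ) := (map_natCast C d).symm
        rw [h1]
        refine (totalDegree_mul _ _).trans ?_
        rw [totalDegree_C, zero_add]
        have := h.low i
        omega
      · refine totalDegree_finsetSum_le fun j _ => ?_
        rcases Nat.eq_zero_or_pos (L i).totalDegree with h0 | h0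
        · rw [(totalDegree_eq_zero_iff_eq_C).1 h0, pderiv_C, zero_mul, totalDegree_zero]
          exact Nat.zero_le _
        · refine (totalDegree_mul _ _).trans ?_
          rw [totalDegree_X]
          have h1 := totalDegree_pderiv_le (L i) j
          have h2 := h.low i
          omega
    omega
  have hUC : ∀ j, U j = C (coeff 0 (U j)) := fun j =>
    (totalDegree_eq_zero_iff_eq_C).1 (const_of_low h U hUlow j)
  set u : σ → κ := fun j => coeff 0 (U j) with hu
  have hdV : ∀ j, (d : MvPolynomial σ κ) * V j = X j + C (u j) := by
    intro j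
    have := hUC j
    rw [← this, hU]; ring
  have hE : ∀ i, ∑ j, pderiv j (F i) * (X j + C (u j)) = (d : MvPolynomial σ κ) * F i := by
    intro i
    have h1 : (d : MvPolynomial σ κ) * F i = (d : MvPolynomial σ κ) * vf V (F i) := by rw [hVF i]
    rw [h1, vf_apply, Finset.mul_sum]
    refine Finset.sum_congr rfl fun j _ => ?_
    rw [← hdV]; ring
  -- translate
  set T : σ → MvPolynomial σ κ := fun j => X j - C (u j) with hT
  set S : σ → MvPolynomial σ κ := fun j => X j + C (u j) with hS
  have hF'hom : ∀ i, (aeval T (F i)).IsHomogeneous d := by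
    intro i
    apply isHomogeneous_of_euler
    have h1 : ∑ j, pderiv j (aeval T (F i)) * X j = vf X (aeval T (F i)) := by rw [vf_apply]
    rw [h1, deriv_aeval]
    have h2 : ∀ j, aeval T (pderiv j (F i)) * vf X (T j) =
        aeval T (pderiv j (F i) * (X j + C (u j))) := by
      intro j
      have h3 : vf X (T j) = X j := by
        rw [hT, map_sub, vf_X]
        have : vf (X : σ → MvPolynomial σ κ) (C (u j)) = 0 := derivation_C _ _
        rw [this, sub_zero]
      have h4 : aeval T (X j + C (u j)) = X j := by
        rw [map_add, aeval_X, aeval_C, hT]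
        simp only [algebraMap_eq]
        ring
      rw [h3, map_mul, h4]
    rw [Finset.sum_congr rfl fun j _ => h2 j, ← map_sum, hE, map_mul, map_natCast]
  have hback : ∀ i, aeval S (aeval T (F i)) = F i := by
    intro i
    rw [← AlgHom.comp_apply, comp_aeval]
    have : (fun j => aeval S (T j)) = (X : σ → MvPolynomial σ κ) := by
      funext j
      rw [hT, map_sub, aeval_X, aeval_C, hS]
      simp
    rw [this, aeval_X_left]; rfl
  have hF'G : ∀ i, aeval T (F i) = G i := by
    intro i
    have h1 : ∀ j, (S j).totalDegree ≤ 1 := by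
      intro j
      refine (totalDegree_add _ _).trans (max_le ?_ ?_)
      · rw [totalDegree_X]
      · rw [totalDegree_C]; exact Nat.zero_le _
    have h2 := hc_aeval (d := 1) one_pos h1 (aeval T (F i)) (hF'hom i).totalDegree_le
    have h3 : (fun j => homogeneousComponent 1 (S j)) = (X : σ → MvPolynomial σ κ) := by
      funext j
      rw [hS, map_add, homogeneousComponent_eq_self (isHomogeneous_X κ j),
        hc_of_lt (by rw [totalDegree_C]; exact one_pos), add_zero]
    rw [h3, hback, one_mul, homogeneousComponent_eq_self (hF'hom i), aeval_X_left] at h2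
    have h4 : homogeneousComponent d (F i) = G i := hc_add_of_lt (h.reg.hom i) (h.low i)
    rw [h4] at h2
    exact h2.symm
  refine ⟨u, fun i => ?_⟩
  have := hback i
  rw [hF'G] at this
  exact this.symm

end Pool.Agent.Helper98.PCF
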