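import Mathlib
import Pool.Agent.Helper98.PCF.Cover2

set_option autoImplicit false

namespace Pool.Agent.Helper98.PCF

open MvPolynomial

section Scale

variable {σ R : Type*} [Fintype σ] [CommRing R]

/-- the substitution `y ↦ c y`. -/
noncomputable def sc (c : R) : MvPolynomial σ R →ₐ[R] MvPolynomial σ R :=
  aeval (fun j => C c * X j)

theorem coeff_sc (c : R) (p : MvPolynomial σ R) (m : σ →₀ ℕ) :
    coeff m (sc c p) = c ^ m.degree * coeff m p := by
  classical
  induction p using MvPolynomial.induction_on' with
  | add p q hp hq => rw [map_add, coeff_add, coeff_add, hp, hq]; ring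
  | monomial n a =>
    have h1 : sc c (monomial n a) = C (c ^ n.degree) * monomial n a := by
      rw [sc, aeval_monomial_eq]
      have h2 : (monomial n a : MvPolynomial σ R) = C a * ∏ j, X j ^ n j := by
        have := aeval_monomial_eq (X : σ → MvPolynomial σ R) n a
        rw [aeval_X_left] at this
        exact this
      rw [h2]
      simp only [mul_pow, Finset.prod_mul_distrib, ← C_pow]
      rw [← map_prod, Finset.prod_pow_eq_pow_sum, ← Finsupp.degree_eq_sum]
      ring
    rw [h1, coeff_C_mul, coeff_monomial]
    split_ifs with h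
    · rw [h]
    · rw [mul_zero, mul_zero]

theorem eval_sc (c : R) (p : MvPolynomial σ R) (y : σ → R) :
    eval y (sc c p) = eval (fun j => c * y j) p := by
  have h : (eval y : MvPolynomial σ R →+* R).comp
      (sc c : MvPolynomial σ R →ₐ[R] MvPolynomial σ R).toRingHom =
      eval (fun j => c * y j) := by
    apply MvPolynomial.ringHom_ext
    · intro r
      simp [sc]
    · intro i
      simp [sc]
  exact RingHom.congr_fun h p

theorem pderiv_sc (c : R) (p : MvPolynomial σ R) (j : σ) :
    pderiv j (sc c p) = C c * sc c (pderiv j p) := by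
  classical
  rw [sc, deriv_aeval, Finset.sum_eq_single j]
  · rw [pderiv_C_mul, pderiv_X_self]; ring
  · intro b _ hb
    rw [pderiv_C_mul, pderiv_X_of_ne hb]; ring
  · intro h; exact absurd (Finset.mem_univ j) h

/-- jacobian determinant of a scaled map -/
theorem det_jac_sc [DecidableEq σ] (a c : R) (f : σ → MvPolynomial σ R) :
    (jac (fun i => C a * sc c (f i))).det =
      C ((a * c) ^ Fintype.card σ) * sc c (jac f).det := by
  have h1 : jac (fun i => C a * sc c (f i)) =
      (C (a * c) : MvPolynomial σ R) • (jac f).map (sc c) := by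
    ext1 i j
    simp only [jac, Matrix.of_apply, Matrix.smul_apply, Matrix.map_apply, smul_eq_mul]
    rw [pderiv_C_mul, pderiv_sc, C_mul]
    ring
  rw [h1, Matrix.det_smul, ← C_pow]
  congr 1
  have := RingHom.map_det (sc c : MvPolynomial σ R →ₐ[R] MvPolynomial σ R).toRingHom (jac f)
  exact this.symm

end Scale

section Lift

variable {σ Ω : Type*} [Fintype σ] [Field Ω] (O : ValuationSubring Ω)

/-- inclusion of the valuation ring -/
noncomputable abbrev inc : O →+* Ω := O.subtype

/-- residue map -/
noncomputable abbrev res : O →+* IsLocalRing.ResidueField O := IsLocalRing.residue O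

theorem inc_injective : Function.Injective (inc O) := Subtype.val_injective

theorem map_inc_injective : Function.Injective (map (inc O) : MvPolynomial σ O → _) :=
  map_injective _ (inc_injective O)

variable {O}

theorem exists_lift {p : MvPolynomial σ Ω} (h : ∀ m, O.valuation (coeff m p) ≤ 1) :
    ∃ q : MvPolynomial σ O, map (inc O) q = p := by
  classical
  refine ⟨∑ m ∈ p.support, monomial m ⟨coeff m p, (O.valuation_le_one_iff _).1 (h m)⟩, ?_⟩
  rw [map_sum]
  conv_rhs => rw [← support_sum_monomial_coeff p]
  refine Finset.sum_congr rfl fun m _ => ?_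
  rw [map_monomial]
  rfl

theorem coeff_res_eq_zero {q : MvPolynomial σ O} {m : σ →₀ ℕ}
    (h : O.valuation (coeff m (map (inc O) q)) < 1) : coeff m (map (res O) q) = 0 := by
  rw [coeff_map, IsLocalRing.residue_eq_zero_iff]
  rw [coeff_map] at h
  exact (O.valuation_lt_one_iff _).2 h

theorem coeff_res_eq {q : MvPolynomial σ O} {m : σ →₀ ℕ} {a : O}
    (h : coeff m (map (inc O) q) = a) : coeff m (map (res O) q) = res O a := by
  rw [coeff_map]
  rw [coeff_map] at h
  congr 1
  exact Subtype.ext h

/-- extraction of a coefficient of maximal absolute value. -/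
theorem exists_primitive {S : MvPolynomial σ Ω} (hS : S ≠ 0) :
    ∃ (s : Ω) (q : MvPolynomial σ O), s ≠ 0 ∧ S = C s * map (inc O) q ∧ map (res O) q ≠ 0 := by
  classical
  have hne : S.support.Nonempty := by
    rwa [Finset.nonempty_iff_ne_empty, Ne, support_eq_empty]
  obtain ⟨m₀, hm₀, hmax⟩ := Finset.exists_max_image S.support
    (fun m => O.valuation (coeff m S)) hne
  set s := coeff m₀ S with hs
  have hs0 : s ≠ 0 := mem_support_iff.1 hm₀
  have hle : ∀ m, O.valuation (coeff m (C s⁻¹ * S)) ≤ 1 := by
    intro m
    rw [coeff_C_mul, map_mul, map_inv₀]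
    by_cases hm : m ∈ S.support
    · have h1 := hmax m hm
      have h2 : O.valuation s ≠ 0 := (Valuation.ne_zero_iff _).2 hs0
      calc (O.valuation s)⁻¹ * O.valuation (coeff m S)
          ≤ (O.valuation s)⁻¹ * O.valuation s := mul_le_mul_right h1 _
        _ = 1 := inv_mul_cancel₀ h2
    · rw [notMem_support_iff.1 hm, map_zero, mul_zero]
      exact zero_le_one
  obtain ⟨q, hq⟩ := exists_lift hle
  refine ⟨s, q, hs0, ?_, ?_⟩
  · rw [hq, ← mul_assoc, ← C_mul, mul_inv_cancel₀ hs0, C_1, one_mul]
  · intro h0
    have h1 : coeff m₀ (map (inc O) q) = ((1 : O) : Ω) := by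
      rw [hq, coeff_C_mul, ← hs, inv_mul_cancel₀ hs0]; rfl
    have h2 := coeff_res_eq h1
    rw [h0, coeff_zero, map_one] at h2
    exact zero_ne_one h2

/-- Gauss: divisibility descends to the residue field. -/
theorem dvd_res {a r : MvPolynomial σ O} (ha : map (res O) a ≠ 0)
    (h : map (inc O) a ∣ map (inc O) r) : map (res O) a ∣ map (res O) r := by
  obtain ⟨S, hS⟩ := h
  by_cases hS0 : S = 0
  · rw [hS0, mul_zero] at hS
    have : r = 0 := map_inc_injective O (by rw [hS, map_zero])
    rw [this, map_zero]
    exact dvd_zero _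
  obtain ⟨s, q, hs0, hSq, hq⟩ := exists_primitive (O := O) hS0
  rcases le_or_gt (O.valuation s) 1 with h1 | h1
  · have h2 : r = a * (C ⟨s, (O.valuation_le_one_iff _).1 h1⟩ * q) := by
      apply map_inc_injective O
      rw [hS, hSq, map_mul, map_mul, map_C]
      rfl
    rw [h2, map_mul]
    exact Dvd.intro _ rfl
  · exfalso
    have h3 : O.valuation s⁻¹ < 1 := by
      rw [map_inv₀]
      exact inv_lt_one_of_one_lt₀ h1
    let t : O := ⟨s⁻¹, (O.valuation_le_one_iff _).1 h3.le⟩
    have h4 : C t * r = a * q := by
      apply map_inc_injective O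
      rw [map_mul, map_mul, map_C, hS, hSq]
      have h5 : (C (inc O t) : MvPolynomial σ Ω) * C s = 1 := by
        rw [← C_mul]
        have : inc O t * s = 1 := inv_mul_cancel₀ hs0
        rw [this, C_1]
      linear_combination (map (inc O) a * map (inc O) q) * h5
    have h6 := congrArg (map (res O)) h4
    have h7 : res O t = 0 := by
      rw [IsLocalRing.residue_eq_zero_iff]
      exact (O.valuation_lt_one_iff t).2 h3
    rw [map_mul, map_mul, map_C, h7, C_0, zero_mul] at h6
    exact mul_ne_zero ha hq h6.symm

end Lift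

end Pool.Agent.Helper98.PCF
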