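import Mathlib
import Pool.Agent.Helper98.PCF.Lift

set_option autoImplicit false

namespace Pool.Agent.Helper98.PCF

open MvPolynomial

section Defs

variable {σ R : Type*} [CommRing R]

/-- the self-map of affine space defined by a family of polynomials -/
noncomputable def pmap (f : σ → MvPolynomial σ R) (x : σ → R) : σ → R := fun i => eval x (f i)

/-- composition of a sequence of polynomial maps -/
noncomputable def comps (F : ℕ → σ → MvPolynomial σ R) : ℕ → σ → MvPolynomial σ R
  | 0 => X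
  | n + 1 => fun i => aeval (comps F n) (F n i)

/-- all forward images of critical points satisfy the equation `Q = 0`. -/
def Kills [Fintype σ] [DecidableEq σ] (f : σ → MvPolynomial σ R) (Q : MvPolynomial σ R) : Prop :=
  ∀ x : σ → R, eval x (jac f).det = 0 → ∀ n : ℕ, 1 ≤ n → eval ((pmap f)^[n] x) Q = 0

end Defs

section Iter

variable {σ κ : Type*} [Fintype σ] [DecidableEq σ] [Field κ] [CharZero κ]

/-- iterates of a polynomial map as polynomials -/
noncomputable def Gi (G : σ → MvPolynomial σ κ) : ℕ → σ → MvPolynomial σ κ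
  | 0 => X
  | k + 1 => fun i => aeval (Gi G k) (G i)

theorem Gi_homogeneous {d : ℕ} {G : σ → MvPolynomial σ κ} (hG : ∀ i, (G i).IsHomogeneous d)
    (k : ℕ) (i : σ) : (Gi G k i).IsHomogeneous (d ^ k) := by
  induction k generalizing i with
  | zero => exact isHomogeneous_X _ _
  | succ k ih =>
    show (aeval (Gi G k) (G i)).IsHomogeneous (d ^ (k + 1))
    rw [pow_succ]
    exact (hG i).aeval (Gi G k) ih

theorem aeval_Gi_ne_zero {d : ℕ} {G : σ → MvPolynomial σ κ}
    (hG : RegMap d G (fun _ => (0 : MvPolynomial σ κ))) (k : ℕ) {p : MvPolynomial σ κ}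
    (hp : p ≠ 0) : aeval (Gi G k) p ≠ 0 := by
  induction k generalizing p with
  | zero =>
    show aeval X p ≠ 0
    rwa [aeval_X_left, AlgHom.id_apply]
  | succ k ih =>
    have h1 : aeval (Gi G (k + 1)) p = aeval (Gi G k) (aeval G p) := by
      rw [← AlgHom.comp_apply, comp_aeval]
      rfl
    rw [h1]
    apply ih
    intro h0
    apply hp
    refine aeval_injective hG p.totalDegree p le_rfl ?_
    simpa using h0

end Iter

section Main

variable {σ K₁ Ω : Type*} [Fintype σ] [DecidableEq σ] [Field K₁] [Field Ω] [CharZero Ω]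
  [IsAlgClosed Ω] [Algebra K₁ Ω]

theorem eval_aeval_pts {σ R : Type*} [CommRing R] (H : σ → MvPolynomial σ R)
    (p : MvPolynomial σ R) (y : σ → R) :
    eval y (aeval H p) = eval (fun j => eval y (H j)) p := by
  have h : (eval y : MvPolynomial σ R →+* R).comp
      (aeval H : MvPolynomial σ R →ₐ[R] MvPolynomial σ R).toRingHom =
      eval (fun j => eval y (H j)) := by
    apply MvPolynomial.ringHom_ext
    · intro r
      simp
    · intro i
      simp
  exact RingHom.congr_fun h p

theorem dvd_pow_of_zeros {σ : Type*} [Finite σ] {J R : MvPolynomial σ Ω}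
    (h : ∀ y : σ → Ω, eval y J = 0 → eval y R = 0) : ∃ M : ℕ, J ∣ R ^ M := by
  have h1 : R ∈ vanishingIdeal Ω (zeroLocus Ω (Ideal.span {J})) := by
    intro x hx
    rw [zeroLocus_span] at hx
    have h2 := hx J (Set.mem_singleton _)
    rw [aeval_eq_eval] at h2 ⊢
    exact h x h2
  rw [vanishingIdeal_zeroLocus_eq_radical] at h1
  obtain ⟨M, hM⟩ := h1
  exact ⟨M, Ideal.mem_span_singleton.1 hM⟩

theorem map_aeval_comm {σ R S : Type*} [CommRing R] [CommRing S] (f : R →+* S)
    (H : σ → MvPolynomial σ R) (p : MvPolynomial σ R) :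
    map f (aeval H p) = aeval (fun j => map f (H j)) (map f p) := by
  have h : (map f : MvPolynomial σ R →+* MvPolynomial σ S).comp
      (aeval H : MvPolynomial σ R →ₐ[R] MvPolynomial σ R).toRingHom =
      ((aeval (fun j => map f (H j)) : MvPolynomial σ S →ₐ[S] MvPolynomial σ S) :
        MvPolynomial σ S →+* MvPolynomial σ S).comp (map f) := by
    apply MvPolynomial.ringHom_ext
    · intro r
      simp
    · intro i
      simp
  exact RingHom.congr_fun h p

/-- **Key proposition.** -/
theorem good_of_kills (O : ValuationSubring Ω) (hK : ∀ c : K₁, algebraMap K₁ Ω c ∈ O)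
    (arch : ∀ l a : Ω, 1 < O.valuation l → ∃ n : ℕ, O.valuation a ≤ O.valuation l ^ n)
    {d : ℕ} (hd : 2 ≤ d) {G : σ → MvPolynomial σ K₁} (hG : RegForms d G)
    {P : σ → MvPolynomial σ Ω} (hP : ∀ i, (P i).totalDegree < d) (hP0 : ∀ i, coeff 0 (P i) = 0)
    {Q : MvPolynomial σ Ω} (hQ : Q ≠ 0)
    (hpcf : Kills (fun i => map (algebraMap K₁ Ω) (G i) + P i) Q) (i : σ) (m : σ →₀ ℕ) :
    O.valuation (coeff m (P i)) ≤ 1 := by
  classical
  by_contra hbad
  push Not at hbad
  set v := O.valuation with hv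
  set f : σ → MvPolynomial σ Ω := fun i => map (algebraMap K₁ Ω) (G i) + P i with hf
  -- choice of `λ`
  let S : Finset (Σ _ : σ, σ →₀ ℕ) := Finset.univ.sigma fun i => (P i).support
  have hdeg : ∀ x ∈ S, x.2.degree < d := by
    rintro ⟨i, m⟩ hx
    have : m ∈ (P i).support := (Finset.mem_sigma.1 hx).2
    exact lt_of_le_of_lt (degree_le_totalDegree this) (hP i)
  have him : (⟨i, m⟩ : Σ _ : σ, σ →₀ ℕ) ∈ S := by
    refine Finset.mem_sigma.2 ⟨Finset.mem_univ _, mem_support_iff.2 ?_⟩
    intro h0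
    rw [h0, map_zero] at hbad
    exact absurd hbad (not_lt.2 zero_le_one)
  let w : (Σ _ : σ, σ →₀ ℕ) → ℕ := fun x => d.factorial / (d - x.2.degree)
  have hw : ∀ x ∈ S, w x * (d - x.2.degree) = d.factorial := by
    intro x hx
    have := hdeg x hx
    exact Nat.div_mul_cancel (Nat.dvd_factorial (by omega) (by omega))
  have hw0 : ∀ x ∈ S, w x ≠ 0 := by
    intro x hx h0
    have := hw x hx
    rw [h0, zero_mul] at this
    exact Nat.factorial_ne_zero d this.symm
  obtain ⟨⟨i₀, m₀⟩, hx₀, hmax⟩ := Finset.exists_max_image S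
    (fun x => v (coeff x.2 (P x.1)) ^ w x) ⟨_, him⟩
  have hm₀ := hdeg _ hx₀
  set e₀ := d - m₀.degree with he₀
  have he₀0 : 0 < e₀ := by simp only at hm₀; omega
  obtain ⟨l, hl⟩ := IsAlgClosed.exists_pow_nat_eq (coeff m₀ (P i₀)) he₀0
  have hvl : ∀ x ∈ S, v (coeff x.2 (P x.1)) ≤ v l ^ (d - x.2.degree) := by
    intro x hx
    have h1 := hmax x hx
    simp only at h1
    rw [← hl, map_pow, ← pow_mul, mul_comm e₀, he₀, hw ⟨i₀, m₀⟩ hx₀, ← hw x hx, mul_comm (w x),
      pow_mul] at h1
    exact (pow_le_pow_iff_left₀ zero_le zero_le (hw0 x hx)).1 h1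
  have hl1 : 1 < v l := by
    by_contra hle
    push Not at hle
    have h1 := hvl _ him
    have h2 : v l ^ (d - m.degree) ≤ 1 := pow_le_one' hle _
    exact absurd (h1.trans h2) (not_le.2 hbad)
  have hl0 : l ≠ 0 := by
    intro h0
    rw [h0, map_zero] at hl1
    exact absurd hl1 (not_lt.2 zero_le_one)
  have hvl0 : v l ≠ 0 := (Valuation.ne_zero_iff _).2 hl0
  -- the ring homomorphism `K₁ → O`
  let j : K₁ →+* O := (algebraMap K₁ Ω).codRestrict O.toSubring hK
  have hj : (inc O).comp j = algebraMap K₁ Ω := by ext c; rfl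
  let κ := IsLocalRing.ResidueField O
  have : CharZero K₁ := (RingHom.charZero_iff (algebraMap K₁ Ω).injective).2 inferInstance
  have : CharZero κ := charZero_of_injective_ringHom ((res O).comp j).injective
  set Gκ : σ → MvPolynomial σ κ := fun i => map ((res O).comp j) (G i) with hGκ
  have hGκreg : RegForms d Gκ := hG.map _
  have hGO : ∀ i, map (inc O) (map j (G i)) = map (algebraMap K₁ Ω) (G i) := by
    intro i; rw [map_map, hj]
  -- lifts of the rescaled lower order terms
  have hcoefD : ∀ D : ℕ, 1 ≤ D → ∀ i m, v (coeff m (C (l⁻¹ ^ (d * D)) * sc (l ^ D) (P i))) ≤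
      (v l)⁻¹ ^ ((D - 1) * (d - m.degree)) := by
    intro D hD i m
    rw [coeff_C_mul, coeff_sc]
    by_cases hm : m ∈ (P i).support
    · have hx : (⟨i, m⟩ : Σ _ : σ, σ →₀ ℕ) ∈ S := Finset.mem_sigma.2 ⟨Finset.mem_univ _, hm⟩
      have h1 := hvl _ hx
      have h2 := hdeg _ hx
      simp only at h1 h2
      obtain ⟨e, he⟩ : ∃ e, d = m.degree + e := ⟨d - m.degree, by omega⟩
      have he' : d - m.degree = e := by omega
      obtain ⟨D', rfl⟩ : ∃ D', D = D' + 1 := ⟨D - 1, by omega⟩
      rw [he'] at h1 ⊢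
      rw [map_mul, map_mul, map_pow, map_pow, map_pow, map_inv₀]
      have h3 : (v l)⁻¹ ^ (d * (D' + 1)) * ((v l ^ (D' + 1)) ^ m.degree * v l ^ e) =
          (v l)⁻¹ ^ (D' * e) := by
        rw [inv_pow, inv_pow, ← pow_mul, ← pow_add, inv_mul_eq_iff_eq_mul₀ (pow_ne_zero _ hvl0),
          eq_mul_inv_iff_mul_eq₀ (pow_ne_zero _ hvl0), ← pow_add, he]
        congr 1; ring
      rw [show D' + 1 - 1 = D' from rfl, ← h3]
      exact mul_le_mul_right (mul_le_mul_right h1 _) _
    · rw [notMem_support_iff.1 hm, mul_zero, mul_zero, map_zero]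
      exact zero_le
  have hinv : (v l)⁻¹ < 1 := inv_lt_one_of_one_lt₀ hl1
  have hlift : ∀ D : ℕ, ∃ L : σ → MvPolynomial σ O, 1 ≤ D → ∀ i,
      map (inc O) (L i) = C (l⁻¹ ^ (d * D)) * sc (l ^ D) (P i) := by
    intro D
    by_cases hD : 1 ≤ D
    · have : ∀ i, ∃ q : MvPolynomial σ O,
          map (inc O) q = C (l⁻¹ ^ (d * D)) * sc (l ^ D) (P i) := fun i =>
        exists_lift fun m => (hcoefD D hD i m).trans (pow_le_one' hinv.le _)
      choose L hL using this
      exact ⟨L, fun _ => hL⟩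
    · exact ⟨fun _ => 0, fun h => absurd h hD⟩
  choose L hL using hlift
  -- the rescaled map `F_D`
  let F : ℕ → σ → MvPolynomial σ O := fun D i => map j (G i) + L D i
  have hFinc : ∀ D, 1 ≤ D → ∀ i, map (inc O) (F D i) = C (l⁻¹ ^ (d * D)) * sc (l ^ D) (f i) := by
    intro D hD i
    show map (inc O) (map j (G i) + L D i) = _
    rw [map_add, hL D hD, hGO, hf, map_add, mul_add]
    congr 1
    ext m
    rw [coeff_C_mul, coeff_sc]
    by_cases hm : coeff m (map (algebraMap K₁ Ω) (G i)) = 0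
    · rw [hm, mul_zero, mul_zero]
    · have h1 : m.degree = d := by
        have := ((hG.hom i).map (algebraMap K₁ Ω)) hm
        rw [← this, Finsupp.degree_eq_weight_one]; rfl
      rw [h1, ← mul_assoc, ← pow_mul, mul_comm D d, ← mul_pow, inv_mul_cancel₀ hl0, one_pow,
        one_mul]
  have heval : ∀ D, 1 ≤ D → ∀ (z : σ → Ω) i,
      eval (fun j => l ^ D * z j) (f i) = l ^ (d * D) * eval z (map (inc O) (F D i)) := by
    intro D hD z i
    rw [hFinc D hD, map_mul, eval_C, eval_sc, ← mul_assoc, ← mul_pow, mul_inv_cancel₀ hl0,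
      one_pow, one_mul]
  have hFres : ∀ D, 2 ≤ D → ∀ i, map (res O) (F D i) = Gκ i := by
    intro D hD i
    show map (res O) (map j (G i) + L D i) = _
    rw [map_add, map_map, add_eq_left]
    ext m
    rw [coeff_zero]
    by_cases hm : m.degree < d
    · apply coeff_res_eq_zero
      rw [hL D (by omega)]
      refine lt_of_le_of_lt (hcoefD D (by omega) i m) ?_
      refine pow_lt_one₀ zero_le hinv ?_
      have h1 : 0 < D - 1 := by omega
      have h2 : 0 < d - m.degree := by omega
      exact (Nat.mul_pos h1 h2).ne'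
    · apply coeff_res_eq_zero
      rw [hL D (by omega), coeff_C_mul, coeff_sc,
        coeff_eq_zero_of_totalDegree_lt (f := P i) (d := m)
          (lt_of_lt_of_le (hP i) (by rw [Finsupp.degree_apply] at hm; exact not_lt.1 hm)),
        mul_zero, mul_zero, map_zero]
      exact zero_lt_one
  set F' : ℕ → σ → MvPolynomial σ O := fun n => F (d ^ n) with hF'
  have hd1 : ∀ n, 1 ≤ d ^ n := fun n => Nat.one_le_pow _ _ (by omega)
  set Fb : σ → MvPolynomial σ κ := fun i => map (res O) (F 1 i) with hFb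
  -- iterates at points
  have hpts : ∀ (y : σ → Ω) (n : ℕ), (pmap f)^[n] (fun j => l * y j) =
      fun i => l ^ (d ^ n) * eval y (map (inc O) (comps F' n i)) := by
    intro y n
    induction n with
    | zero =>
      funext i
      simp [comps]
    | succ n ih =>
      rw [Function.iterate_succ_apply', ih]
      funext i
      show eval (fun j => l ^ (d ^ n) * eval y (map (inc O) (comps F' n j))) (f i) = _
      rw [heval (d ^ n) (hd1 n)]
      rw [pow_succ d n, mul_comm (d ^ n) d]
      congr 1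
      show _ = eval y (map (inc O) (aeval (comps F' n) (F' n i)))
      rw [map_aeval_comm, eval_aeval_pts]
  -- iterates reduced
  have hred : ∀ k i, map (res O) (comps F' (k + 1) i) = aeval Fb (Gi Gκ k i) := by
    intro k
    induction k with
    | zero =>
      intro i
      show map (res O) (aeval X (F' 0 i)) = aeval Fb (X i)
      rw [aeval_X_left, AlgHom.id_apply, aeval_X]
      show map (res O) (F (d ^ 0) i) = _
      rw [pow_zero]
    | succ k ih =>
      intro i
      show map (res O) (aeval (comps F' (k + 1)) (F' (k + 1) i)) =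
        aeval Fb (aeval (Gi Gκ k) (Gκ i))
      rw [map_aeval_comm]
      have h1 : map (res O) (F' (k + 1) i) = Gκ i := by
        refine hFres _ ?_ i
        calc 2 ≤ d := hd
          _ = d ^ 1 := (pow_one d).symm
          _ ≤ d ^ (k + 1) := Nat.pow_le_pow_right (by omega) (by omega)
      rw [h1, ← AlgHom.comp_apply, comp_aeval]
      congr 2
      funext j
      exact ih j
  -- rescaling of `Q`
  set m' := Q.totalDegree with hm'
  have hQs : Q.support.Nonempty := by
    rwa [Finset.nonempty_iff_ne_empty, Ne, support_eq_empty]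
  have hne : (Q.support.filter (fun a => a.degree = m')).Nonempty := by
    obtain ⟨a, ha, hae⟩ := Finset.exists_mem_eq_sup Q.support hQs
      (fun s : σ →₀ ℕ => s.sum fun _ e => e)
    refine ⟨a, Finset.mem_filter.2 ⟨ha, ?_⟩⟩
    rw [Finsupp.degree_apply, hm']
    exact hae.symm
  obtain ⟨a₀, ha₀, hmaxQ⟩ := Finset.exists_max_image _ (fun a => v (coeff a Q)) hne
  set q := coeff a₀ Q with hq
  have hq0 : q ≠ 0 := mem_support_iff.1 (Finset.mem_filter.1 ha₀).1
  have hvq0 : v q ≠ 0 := (Valuation.ne_zero_iff _).2 hq0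
  obtain ⟨n, hn, hnQ⟩ : ∃ n, 1 ≤ n ∧ ∀ a ∈ Q.support,
      v (coeff a Q) ≤ v q * v l ^ (d ^ n - 1) := by
    choose g hg using fun a : σ →₀ ℕ => arch l (coeff a Q / q) hl1
    refine ⟨Q.support.sup g + 1, by omega, fun a ha => ?_⟩
    have h1 := hg a
    rw [map_div₀, div_le_iff₀ (zero_lt_iff.2 hvq0), mul_comm] at h1
    refine h1.trans (mul_le_mul_right (pow_le_pow_right₀ hl1.le ?_) _)
    have h2 : g a ≤ Q.support.sup g := Finset.le_sup ha
    have h3 : Q.support.sup g + 1 < d ^ (Q.support.sup g + 1) :=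
      Nat.lt_pow_self (by omega)
    omega
  have hQlow : ∀ a, a.degree < m' →
      v (coeff a (C (q⁻¹ * l⁻¹ ^ (d ^ n * m')) * sc (l ^ (d ^ n)) Q)) < 1 := by
    intro a ha
    rw [coeff_C_mul, coeff_sc]
    by_cases ham : a ∈ Q.support
    · have h1 := hnQ a ham
      obtain ⟨e, he⟩ : ∃ e, m' = a.degree + 1 + e := ⟨m' - (a.degree + 1), by omega⟩
      obtain ⟨D', hD'⟩ : ∃ D', d ^ n = D' + 1 := ⟨d ^ n - 1, by have := hd1 n; omega⟩
      rw [hD', Nat.add_sub_cancel] at h1
      rw [map_mul, map_mul, map_mul, map_pow, map_pow, map_pow, map_inv₀, map_inv₀, hD', he]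
      have h3 : (v q)⁻¹ * (v l)⁻¹ ^ ((D' + 1) * (a.degree + 1 + e)) *
          ((v l ^ (D' + 1)) ^ a.degree * (v q * v l ^ D')) = (v l)⁻¹ ^ (1 + (D' + 1) * e) := by
        have h4 : (v l)⁻¹ ^ ((D' + 1) * (a.degree + 1 + e)) =
            (v l)⁻¹ ^ (1 + (D' + 1) * e) * (v l)⁻¹ ^ ((D' + 1) * a.degree + D') := by
          rw [← pow_add]; congr 1; ring
        have h5 : (v l)⁻¹ ^ ((D' + 1) * a.degree + D') *
            ((v l ^ (D' + 1)) ^ a.degree * v l ^ D') = 1 := by
          rw [← pow_mul, ← pow_add, ← mul_pow, inv_mul_cancel₀ hvl0, one_pow]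
        calc _ = ((v q)⁻¹ * v q) * (v l)⁻¹ ^ (1 + (D' + 1) * e) *
              ((v l)⁻¹ ^ ((D' + 1) * a.degree + D') *
                ((v l ^ (D' + 1)) ^ a.degree * v l ^ D')) := by
              rw [h4]
              simp only [mul_assoc, mul_comm, mul_left_comm]
          _ = _ := by rw [h5, inv_mul_cancel₀ hvq0, one_mul, mul_one]
      calc _ ≤ (v q)⁻¹ * (v l)⁻¹ ^ ((D' + 1) * (a.degree + 1 + e)) *
          ((v l ^ (D' + 1)) ^ a.degree * (v q * v l ^ D')) :=
            mul_le_mul_right (mul_le_mul_right h1 _) _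
        _ = (v l)⁻¹ ^ (1 + (D' + 1) * e) := h3
        _ < 1 := pow_lt_one₀ zero_le hinv (by omega)
    · rw [notMem_support_iff.1 ham, mul_zero, mul_zero, map_zero]
      exact zero_lt_one
  have hQtop : ∀ a, a.degree = m' →
      coeff a (C (q⁻¹ * l⁻¹ ^ (d ^ n * m')) * sc (l ^ (d ^ n)) Q) = q⁻¹ * coeff a Q := by
    intro a ha
    rw [coeff_C_mul, coeff_sc, ha, ← pow_mul, inv_pow]
    have : l ^ (d ^ n * m') ≠ 0 := pow_ne_zero _ hl0
    field_simp
  have hQbig : ∀ a, m' < a.degree →
      coeff a (C (q⁻¹ * l⁻¹ ^ (d ^ n * m')) * sc (l ^ (d ^ n)) Q) = 0 := by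
    intro a ha
    rw [coeff_C_mul, coeff_sc, coeff_eq_zero_of_totalDegree_lt (f := Q) (d := a)
      (by rw [Finsupp.degree_apply] at ha; exact ha), mul_zero, mul_zero]
  obtain ⟨Qh, hQh⟩ := exists_lift (O := O)
    (p := C (q⁻¹ * l⁻¹ ^ (d ^ n * m')) * sc (l ^ (d ^ n)) Q) (by
      intro a
      rcases lt_trichotomy a.degree m' with h | h | h
      · exact (hQlow a h).le
      · rw [hQtop a h]
        by_cases ham : a ∈ Q.support
        · have h1 := hmaxQ a (Finset.mem_filter.2 ⟨ham, h⟩)
          rw [map_mul, map_inv₀]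
          calc (v q)⁻¹ * v (coeff a Q) ≤ (v q)⁻¹ * v q := mul_le_mul_right h1 _
            _ = 1 := inv_mul_cancel₀ hvq0
        · rw [notMem_support_iff.1 ham, mul_zero, map_zero]
          exact zero_le_one
      · rw [hQbig a h, map_zero]
        exact zero_le_one)
  set B₀ := map (res O) Qh with hB₀
  have hB₀hom : B₀.IsHomogeneous m' := by
    intro a ha
    have hdw : Finsupp.weight (1 : σ → ℕ) a = a.degree := by
      rw [Finsupp.degree_eq_weight_one]; rfl
    rw [hdw]
    by_contra hne'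
    apply ha
    apply coeff_res_eq_zero
    rw [hQh]
    rcases lt_or_gt_of_ne hne' with h | h
    · exact hQlow a h
    · rw [hQbig a h, map_zero]
      exact zero_lt_one
  have hB₀0 : B₀ ≠ 0 := by
    intro h0
    have h1 : coeff a₀ (map (inc O) Qh) = ((1 : O) : Ω) := by
      rw [hQh, hQtop a₀ (Finset.mem_filter.1 ha₀).2, ← hq, inv_mul_cancel₀ hq0]
      rfl
    have h2 := coeff_res_eq h1
    rw [← hB₀, h0, coeff_zero, map_one] at h2
    exact zero_ne_one h2
  -- vanishing
  have hvan : ∀ y : σ → Ω, eval y (jac (fun i => map (inc O) (F 1 i))).det = 0 →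
      eval y (map (inc O) (aeval (comps F' n) Qh)) = 0 := by
    intro y hy
    have h1 : (fun i => map (inc O) (F 1 i)) = fun i => C (l⁻¹ ^ (d * 1)) * sc (l ^ 1) (f i) := by
      funext i
      exact hFinc 1 le_rfl i
    rw [h1, det_jac_sc, map_mul, eval_C, eval_sc, pow_one, mul_eq_zero] at hy
    have h2 : eval (fun j => l * y j) (jac f).det = 0 := by
      refine hy.resolve_left (pow_ne_zero _ ?_)
      exact mul_ne_zero (pow_ne_zero _ (inv_ne_zero hl0)) hl0
    have h3 := hpcf _ h2 n hn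
    rw [hpts y n] at h3
    rw [map_aeval_comm, eval_aeval_pts, hQh, map_mul, eval_sc, h3, mul_zero]
  obtain ⟨M, hM⟩ := dvd_pow_of_zeros hvan
  rw [det_jac_map, ← map_pow] at hM
  have hFbmap : (fun i => map (res O) (F 1 i)) = Fb := rfl
  have hLow : ∀ i, (map (res O) (L 1 i)).totalDegree < d := by
    intro i
    rw [totalDegree, Finset.sup_lt_iff (by rw [bot_eq_zero]; omega)]
    intro a ha
    by_contra hge
    push Not at hge
    apply mem_support_iff.1 ha
    apply coeff_res_eq_zero
    rw [hL 1 le_rfl, coeff_C_mul, coeff_sc,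
      coeff_eq_zero_of_totalDegree_lt (f := P i) (d := a) (lt_of_lt_of_le (hP i) hge),
      mul_zero, mul_zero, map_zero]
    exact zero_lt_one
  have hFbsum : Fb = fun i => Gκ i + map (res O) (L 1 i) := by
    funext i
    show map (res O) (map j (G i) + L 1 i) = _
    rw [map_add, map_map]
  have hreg : RegMap d Gκ (fun i => map (res O) (L 1 i)) := ⟨by omega, hGκreg, hLow⟩
  have hJ0 : map (res O) (jac (F 1)).det ≠ 0 := by
    rw [← det_jac_map]
    have := det_jac_ne_zero hreg
    rw [← hFbsum] at this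
    exact this
  have hdv := dvd_res hJ0 hM
  rw [← det_jac_map, map_pow, map_aeval_comm] at hdv
  obtain ⟨k, rfl⟩ : ∃ k, n = k + 1 := ⟨n - 1, by omega⟩
  have h1 : (fun j => map (res O) (comps F' (k + 1) j)) = fun j => aeval Fb (Gi Gκ k j) :=
    funext fun j => hred k j
  have h2 : aeval (fun j => aeval Fb (Gi Gκ k j)) B₀ = aeval Fb (aeval (Gi Gκ k) B₀) := by
    rw [← AlgHom.comp_apply, comp_aeval]
  rw [h1, ← hB₀, h2] at hdv
  have hdv' : (jac (fun i => Gκ i + map (res O) (L 1 i))).det ∣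
      (aeval (fun i => Gκ i + map (res O) (L 1 i)) (aeval (Gi Gκ k) B₀)) ^ M := by
    rw [← hFbsum]
    exact hdv
  obtain ⟨b, hb⟩ := cover hreg (hB₀hom.aeval (Gi Gκ k) (Gi_homogeneous hGκreg.hom k))
    (aeval_Gi_ne_zero hreg.top k hB₀0) hdv'
  have hm₀0 : m₀ ≠ 0 := by
    intro h0
    have := (Finset.mem_sigma.1 hx₀).2
    simp only at this
    rw [h0, mem_support_iff] at this
    exact this (hP0 i₀)
  have hcoef0 : ∀ i, coeff 0 (map (res O) (L 1 i)) = 0 := by
    intro i
    apply coeff_res_eq_zero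
    rw [hL 1 le_rfl, coeff_C_mul, coeff_sc, hP0 i, mul_zero, mul_zero, map_zero]
    exact zero_lt_one
  have hb0 : b = 0 := by
    apply hGκreg.eq_zero_of_aeval
    intro i
    have h3 := congrArg (eval 0) (hb i)
    rw [eval_aeval_pts, map_add] at h3
    have h4 : eval (0 : σ → κ) (Gκ i) = 0 := by
      have : constantCoeff (Gκ i) = 0 := by
        rw [constantCoeff_eq]
        exact (hGκreg.hom i).coeff_eq_zero (by simp; omega)
      rw [← this, eval_zero]
    have h5 : eval (0 : σ → κ) (map (res O) (L 1 i)) = 0 := by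
      rw [← hcoef0 i, ← constantCoeff_eq, eval_zero]
    rw [h4, h5, add_zero] at h3
    rw [h3, aeval_eq_eval]
    congr 2
    funext j
    rw [map_add, eval_X, eval_C, Pi.zero_apply, zero_add]
  have hLz : map (res O) (L 1 i₀) = 0 := by
    have h3 := hb i₀
    rw [hb0] at h3
    have h4 : aeval (fun j => X j + C ((0 : σ → κ) j)) (Gκ i₀) = Gκ i₀ := by
      have : (fun j => X j + C ((0 : σ → κ) j) : σ → MvPolynomial σ κ) = X := by
        funext j
        rw [Pi.zero_apply, C_0, add_zero]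
      rw [this, aeval_X_left, AlgHom.id_apply]
    rw [h4] at h3
    exact add_eq_left.1 h3
  have h3 : coeff m₀ (map (inc O) (L 1 i₀)) = ((1 : O) : Ω) := by
    rw [hL 1 le_rfl, coeff_C_mul, coeff_sc, ← hl, mul_one, pow_one, ← pow_add, inv_pow]
    have : m₀.degree + e₀ = d := by
      simp only at hm₀
      omega
    rw [this, inv_mul_cancel₀ (pow_ne_zero _ hl0)]
    rfl
  have h4 := coeff_res_eq h3
  rw [hLz, coeff_zero, map_one] at h4
  exact zero_ne_one h4

end Main

end Pool.Agent.Helper98.PCF
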