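import Mathlib
import Pool.Agent.Helper98.PCF.Val

set_option autoImplicit false

namespace Pool.Agent.Helper98.PCF

section Arch

open Polynomial

variable {K Ω Γ₀ : Type*} [Field K] [Field Ω] [Algebra K Ω] [LinearOrderedCommGroupWithZero Γ₀]
  (v : Valuation Ω Γ₀)

theorem val_const_eq_one (hK : ∀ c : K, v (algebraMap K Ω c) ≤ 1) {c : K} (hc : c ≠ 0) :
    v (algebraMap K Ω c) = 1 := by
  refine le_antisymm (hK c) ?_
  have h1 := hK c⁻¹
  rw [map_inv₀, map_inv₀] at h1
  have h0 : v (algebraMap K Ω c) ≠ 0 := by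
    rw [Valuation.ne_zero_iff]
    exact (_root_.map_ne_zero _).2 hc
  rw [inv_le_one₀ (zero_lt_iff.2 h0)] at h1
  exact h1

theorem val_aeval_poly_le (hK : ∀ c : K, v (algebraMap K Ω c) ≤ 1) {l : Ω} (hl : 1 ≤ v l)
    {r : K[X]} {n : ℕ} (hn : r.natDegree ≤ n) : v (aeval l r) ≤ v l ^ n := by
  rw [aeval_eq_sum_range]
  refine v.map_sum_le fun i hi => ?_
  rw [Finset.mem_range] at hi
  rw [Algebra.smul_def, map_mul, map_pow]
  calc v (algebraMap K Ω (r.coeff i)) * v l ^ i ≤ 1 * v l ^ i := mul_le_mul_left (hK _) _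
    _ = v l ^ i := one_mul _
    _ ≤ v l ^ n := pow_le_pow_right' hl (by omega)

theorem val_aeval_poly (hK : ∀ c : K, v (algebraMap K Ω c) ≤ 1) {l : Ω} (hl : 1 < v l)
    {r : K[X]} (hr : r ≠ 0) : v (aeval l r) = v l ^ r.natDegree := by
  have h1 : v (algebraMap K Ω r.leadingCoeff * l ^ r.natDegree) = v l ^ r.natDegree := by
    rw [map_mul, map_pow, val_const_eq_one v hK (leadingCoeff_ne_zero.2 hr), one_mul]
  have h2 : aeval l r = aeval l r.eraseLead + algebraMap K Ω r.leadingCoeff * l ^ r.natDegree := by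
    conv_lhs => rw [← eraseLead_add_C_mul_X_pow r]
    rw [map_add, map_mul, aeval_C, map_pow, aeval_X]
  rcases Nat.eq_zero_or_pos r.natDegree with h0 | h0
  · have h3 : r.eraseLead = 0 := by
      rw [eq_C_of_natDegree_eq_zero h0]
      exact eraseLead_C _
    rw [h2, h3, map_zero, zero_add, h1]
  · rw [h2, Valuation.map_add_eq_of_lt_right, h1]
    rw [h1]
    refine lt_of_le_of_lt (val_aeval_poly_le v hK hl.le (n := r.natDegree - 1)
      (eraseLead_natDegree_le r)) ?_
    exact pow_lt_pow_right₀ hl (by omega)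

theorem arch_of_algebraic (hK : ∀ c : K, v (algebraMap K Ω c) ≤ 1) {l a : Ω} (hl : 1 < v l)
    (ha : IsAlgebraic (Algebra.adjoin K {l}) a) : ∃ n : ℕ, v a ≤ v l ^ n := by
  rcases le_or_gt (v a) 1 with h1 | h1
  · exact ⟨0, by rwa [pow_zero]⟩
  obtain ⟨p, hp, hpa⟩ := ha
  have hmem : ∀ i, ∃ r : K[X], aeval l r = ((p.coeff i : Algebra.adjoin K {l}) : Ω) := by
    intro i
    have h2 : ((p.coeff i : Algebra.adjoin K {l}) : Ω) ∈ Algebra.adjoin K {l} := (p.coeff i).2
    generalize ((p.coeff i : Algebra.adjoin K {l}) : Ω) = b at h2 ⊢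
    rw [Algebra.adjoin_singleton_eq_range_aeval] at h2
    exact h2
  choose r hr using hmem
  set D := (Finset.range p.natDegree).sup fun i => (r i).natDegree with hD
  have hn : 0 < p.natDegree := by
    rcases Nat.eq_zero_or_pos p.natDegree with h0 | h0
    · exfalso
      rw [eq_C_of_natDegree_eq_zero h0, aeval_C] at hpa
      apply hp
      rw [eq_C_of_natDegree_eq_zero h0]
      have : p.coeff 0 = 0 := Subtype.ext hpa
      rw [this, C_0]
    · exact h0
  have hlead : (r p.natDegree) ≠ 0 := by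
    intro h0
    have h2 := hr p.natDegree
    rw [h0, map_zero] at h2
    apply leadingCoeff_ne_zero.2 hp
    exact Subtype.ext h2.symm
  have hvlead : 1 ≤ v ((p.coeff p.natDegree : Algebra.adjoin K {l}) : Ω) := by
    rw [← hr, val_aeval_poly v hK hl hlead]
    exact one_le_pow_of_one_le' hl.le _
  have hsum : ((p.coeff p.natDegree : Algebra.adjoin K {l}) : Ω) * a ^ p.natDegree =
      - ∑ i ∈ Finset.range p.natDegree, ((p.coeff i : Algebra.adjoin K {l}) : Ω) * a ^ i := by
    rw [aeval_eq_sum_range, Finset.sum_range_succ] at hpa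
    rw [eq_neg_iff_add_eq_zero, add_comm]
    exact hpa
  have hle : v (∑ i ∈ Finset.range p.natDegree, ((p.coeff i : Algebra.adjoin K {l}) : Ω) * a ^ i) ≤
      v l ^ D * v a ^ (p.natDegree - 1) := by
    refine v.map_sum_le fun i hi => ?_
    rw [map_mul, map_pow, ← hr]
    refine mul_le_mul' ?_ ?_
    · exact val_aeval_poly_le v hK hl.le (Finset.le_sup (f := fun i => (r i).natDegree) hi)
    · rw [Finset.mem_range] at hi
      exact pow_le_pow_right' h1.le (by omega)
  refine ⟨D, ?_⟩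
  have h3 : v a ^ p.natDegree ≤ v l ^ D * v a ^ (p.natDegree - 1) := by
    calc v a ^ p.natDegree = 1 * v a ^ p.natDegree := (one_mul _).symm
      _ ≤ v ((p.coeff p.natDegree : Algebra.adjoin K {l}) : Ω) * v a ^ p.natDegree :=
        mul_le_mul_left hvlead _
      _ = v (((p.coeff p.natDegree : Algebra.adjoin K {l}) : Ω) * a ^ p.natDegree) := by
        rw [map_mul, map_pow]
      _ ≤ _ := by rw [hsum, Valuation.map_neg]; exact hle
  have h4 : v a ^ p.natDegree = v a * v a ^ (p.natDegree - 1) := by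
    rw [← pow_succ']; congr 1; omega
  rw [h4] at h3
  have h5 : 0 < v a ^ (p.natDegree - 1) := by
    apply pow_pos
    exact lt_trans zero_lt_one h1
  exact (mul_le_mul_iff_left₀ h5).1 h3

end Arch

end Pool.Agent.Helper98.PCF
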