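import Mathlib
import Pool.Agent.Helper98.PCF.Arch

set_option autoImplicit false

namespace Pool.Agent.Helper98.PCF

open AlgebraicIndependent

section Field

variable {k Ω : Type*} [Field k] [Field Ω] [Algebra k Ω]

/-- Given an element `c` not in the algebraically closed subfield `k`, there are an intermediate
field `K₁`, and a valuation ring of `Ω` which contains `K₁`, does not contain `c` and has the
archimedean property. -/
theorem exists_valuation [IsAlgClosed k] {c : Ω} (hc : c ∉ (algebraMap k Ω).range) :
    ∃ (K₁ : IntermediateField k Ω) (O : ValuationSubring Ω), (∀ a ∈ K₁, a ∈ O) ∧ c ∉ O ∧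
      ∀ l a : Ω, 1 < O.valuation l → ∃ n : ℕ, O.valuation a ≤ O.valuation l ^ n := by
  classical
  have htr : Transcendental k c := by
    intro halg
    apply hc
    have h1 : IsIntegral k c := halg.isIntegral
    have h2 := IsAlgClosed.degree_eq_one_of_irreducible k (minpoly.irreducible h1)
    exact minpoly.mem_range_of_degree_eq_one k c h2
  have hind : AlgebraicIndepOn k id ({c} : Set Ω) := by
    have : Subsingleton ({c} : Set Ω) := Set.subsingleton_coe _ |>.2 Set.subsingleton_singleton
    exact (algebraicIndependent_singleton_iff (⟨c, rfl⟩ : ({c} : Set Ω))).2 htr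
  obtain ⟨S, hcS, hS⟩ := exists_isTranscendenceBasis_superset hind
  rw [Set.singleton_subset_iff] at hcS
  let M := matroid k Ω
  have hbase : M.IsBase S := matroid_isBase_iff.2 hS
  set X := S \ {c} with hX
  have hcX : c ∉ M.closure X := Matroid.Indep.notMem_closure_sdiff_of_mem hbase.indep hcS
  have hins : insert c X = S := by rw [hX, Set.insert_sdiff_singleton, Set.insert_eq_of_mem hcS]
  have hclos : ∀ a, a ∈ M.closure (insert c X) := by
    intro a
    rw [hins, hbase.closure_eq]
    exact Set.mem_univ a
  have hmem : ∀ {Y : Set Ω} {a : Ω}, a ∈ M.closure Y ↔ IsAlgebraic (Algebra.adjoin k Y) a := by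
    intro Y a
    rw [matroid_closure_eq]
    rfl
  let K₁ : IntermediateField k Ω :=
    (algebraicClosure (IntermediateField.adjoin k X) Ω).restrictScalars k
  have hK₁ : ∀ a, a ∈ K₁ ↔ a ∈ M.closure X := by
    intro a
    rw [hmem, ← IntermediateField.isAlgebraic_adjoin_iff]
    exact mem_algebraicClosure_iff
  -- the valuation ring
  obtain ⟨O, hKO, hcO⟩ : ∃ O : ValuationSubring Ω, (∀ a ∈ K₁, a ∈ O) ∧ c ∉ O := by
    by_contra hcon
    push Not at hcon
    have h1 : c ∈ (⨅ V : {V : ValuationSubring Ω // (K₁ : Set Ω) ⊆ V.toSubring},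
        V.1.toSubring) := by
      rw [Subring.mem_iInf]
      rintro ⟨V, hV⟩
      exact hcon V fun a ha => hV ha
    rw [iInf_valuationSubring_superset] at h1
    have h2 : IsIntegral (Subring.closure (K₁ : Set Ω)) c := h1
    have h3 : Subring.closure (K₁ : Set Ω) = K₁.toSubfield.toSubring :=
      Subring.closure_eq K₁.toSubfield.toSubring
    rw [h3] at h2
    have h4 : IsIntegral K₁ c := h2
    have h5 : IsAlgebraic (algebraicClosure (IntermediateField.adjoin k X) Ω) c := h4.isAlgebraic
    have h6 : IsAlgebraic (IntermediateField.adjoin k X) c :=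
      IsAlgebraic.restrictScalars (IntermediateField.adjoin k X) h5
    exact hcX ((hK₁ c).1 (mem_algebraicClosure_iff.2 h6))
  refine ⟨K₁, O, hKO, hcO, ?_⟩
  intro l a hl
  have hlK : l ∉ M.closure X := by
    intro hl'
    have := hKO l ((hK₁ l).2 hl')
    rw [← O.valuation_le_one_iff] at this
    exact absurd hl (not_lt.2 this)
  have h1 : c ∈ M.closure (insert l X) := Matroid.mem_closure_insert hlK (hclos l)
  have h2 : a ∈ M.closure (insert l X) := by
    have h3 : M.closure (insert c X) ⊆ M.closure (insert l X) := by
      refine Matroid.closure_subset_closure_of_subset_closure ?_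
      intro y hy
      rcases hy with rfl | hy
      · exact h1
      · exact M.subset_closure _ (by rw [matroid_e]; exact Set.subset_univ _)
          (Set.mem_insert_of_mem _ hy)
    exact h3 (hclos a)
  rw [hmem] at h2
  have hle : (Algebra.adjoin k (insert l X)).toSubring ≤ (Algebra.adjoin K₁ {l}).toSubring := by
    have : Algebra.adjoin k (insert l X) ≤ (Algebra.adjoin K₁ {l}).restrictScalars k := by
      rw [Algebra.adjoin_le_iff]
      intro y hy
      rcases hy with rfl | hy
      · exact Algebra.subset_adjoin rfl
      · have hyK : y ∈ K₁ := (hK₁ y).2 (M.subset_closure _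
          (by rw [matroid_e]; exact Set.subset_univ _) hy)
        exact (Algebra.adjoin K₁ {l}).algebraMap_mem ⟨y, hyK⟩
    exact this
  have h3 : IsAlgebraic (Algebra.adjoin K₁ {l}) a := by
    obtain ⟨p, hp, hpa⟩ := h2
    let φ : (Algebra.adjoin k (insert l X)).toSubring →+* (Algebra.adjoin K₁ {l}).toSubring :=
      Subring.inclusion hle
    have hφ : Function.Injective φ := Subring.inclusion_injective hle
    refine ⟨p.map φ, (Polynomial.map_ne_zero_iff hφ).2 hp, ?_⟩
    rw [Polynomial.aeval_def, Polynomial.eval₂_map]
    exact hpa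
  exact arch_of_algebraic O.valuation
    (fun c => (O.valuation_le_one_iff _).2 (hKO _ c.2)) hl h3

open MvPolynomial in
/-- **Descent.**  If the postcritical set of a regular polynomial map `G + P`, with leading forms
`G` defined over the algebraically closed field `k` and with fixed point `0`, is contained in a
hypersurface, then the map is defined over `k`. -/
theorem coeff_mem_of_kills [IsAlgClosed k] [IsAlgClosed Ω] [CharZero Ω] {σ : Type*} [Fintype σ]
    [DecidableEq σ] {d : ℕ} (hd : 2 ≤ d) {G : σ → MvPolynomial σ k} (hG : RegForms d G)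
    {P : σ → MvPolynomial σ Ω} (hP : ∀ i, (P i).totalDegree < d) (hP0 : ∀ i, coeff 0 (P i) = 0)
    {Q : MvPolynomial σ Ω} (hQ : Q ≠ 0)
    (hpcf : Kills (fun i => map (algebraMap k Ω) (G i) + P i) Q) (i : σ) (m : σ →₀ ℕ) :
    coeff m (P i) ∈ (algebraMap k Ω).range := by
  by_contra hc
  obtain ⟨K₁, O, hKO, hcO, harch⟩ := exists_valuation hc
  have hmap : ∀ i, map (algebraMap K₁ Ω) (map (algebraMap k K₁) (G i)) =
      map (algebraMap k Ω) (G i) := by
    intro i
    rw [map_map, ← IsScalarTower.algebraMap_eq]
  have h1 := good_of_kills (K₁ := K₁) O (fun c => hKO _ c.2) harch hd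
    (hG.map (algebraMap k K₁)) hP hP0 hQ (by simpa only [hmap] using hpcf) i m
  rw [O.valuation_le_one_iff] at h1
  exact hcO h1

end Field

end Pool.Agent.Helper98.PCF
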