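import Mathlib

set_option autoImplicit false

namespace Pool.Agent.Helper98.PCF

open MvPolynomial

/-- A nonzero finitely generated algebra over an algebraically closed field has a point, and
one can prescribe a proper ideal to be in the kernel. -/
theorem exists_algHom_of_ne_top {k R : Type*} [Field k] [IsAlgClosed k] [CommRing R] [Algebra k R]
    [Algebra.FiniteType k R] (I : Ideal R) (hI : I ≠ ⊤) :
    ∃ t : R →ₐ[k] k, ∀ x ∈ I, t x = 0 := by
  obtain ⟨Q, hQ, hIQ⟩ := Ideal.exists_le_maximal I hI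
  let : Field (R ⧸ Q) := Ideal.Quotient.field Q
  have : Algebra.FiniteType k (R ⧸ Q) :=
    Algebra.FiniteType.of_surjective (Ideal.Quotient.mkₐ k Q) (Ideal.Quotient.mkₐ_surjective k Q)
  have : Module.Finite k (R ⧸ Q) := finite_of_finite_type_of_isJacobsonRing k (R ⧸ Q)
  let φ : (R ⧸ Q) →ₐ[k] k := IsAlgClosed.lift
  refine ⟨φ.comp (Ideal.Quotient.mkₐ k Q), fun x hx => ?_⟩
  rw [AlgHom.comp_apply]
  have : Ideal.Quotient.mkₐ k Q x = 0 := Ideal.Quotient.eq_zero_iff_mem.2 (hIQ hx)
  rw [this, map_zero]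

/-- Over an uncountable field, countably many nonzero polynomials have a common nonzero. -/
theorem exists_forall_eval_ne_zero {k : Type*} [Field k] [Uncountable k] {ι : Type*} [Countable ι]
    {n : ℕ} (p : ι → MvPolynomial (Fin n) k) (hp : ∀ i, p i ≠ 0) :
    ∃ y : Fin n → k, ∀ i, eval y (p i) ≠ 0 := by
  induction n with
  | zero =>
    refine ⟨0, fun i h0 => hp i ?_⟩
    rw [eq_C_of_isEmpty (p i)] at h0 ⊢
    rw [eval_C] at h0
    rw [h0, C_0]
  | succ n ih =>
    have hq : ∀ i, (finSuccEquiv k n (p i)).leadingCoeff ≠ 0 := by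
      intro i
      rw [Polynomial.leadingCoeff_ne_zero, EmbeddingLike.map_ne_zero_iff]
      exact hp i
    obtain ⟨y, hy⟩ := ih _ hq
    have hr : ∀ i, (finSuccEquiv k n (p i)).map (eval y) ≠ 0 := by
      intro i h0
      apply hy i
      have := congrArg (fun q => Polynomial.coeff q (finSuccEquiv k n (p i)).natDegree) h0
      simpa [Polynomial.coeff_map] using this
    have hcount : (⋃ i, {a : k | ((finSuccEquiv k n (p i)).map (eval y)).IsRoot a}).Countable :=
      Set.countable_iUnion fun i => (Polynomial.finite_setOfPred_isRoot (hr i)).countable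
    obtain ⟨a, ha⟩ : ∃ a, a ∉ (⋃ i, {a : k | ((finSuccEquiv k n (p i)).map (eval y)).IsRoot a}) := by
      by_contra hcon
      push Not at hcon
      rw [Set.eq_univ_of_forall hcon, Set.countable_univ_iff] at hcount
      exact not_countable hcount
    refine ⟨Fin.cons a y, fun i h0 => ha ?_⟩
    rw [eval_eq_eval_mv_eval'] at h0
    exact Set.mem_iUnion.2 ⟨i, h0⟩

/-- **Generic points.** A domain of finite type over an uncountable algebraically closed field
has a point avoiding countably many proper closed subsets. -/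
theorem exists_generic_point {k R : Type*} [Field k] [IsAlgClosed k] [Uncountable k] [CommRing R]
    [IsDomain R] [Algebra k R] [Algebra.FiniteType k R] {S : Set R} (hS : S.Countable)
    (h0 : (0 : R) ∉ S) : ∃ t : R →ₐ[k] k, ∀ s ∈ S, t s ≠ 0 := by
  obtain ⟨n, g, hginj, hgint⟩ := exists_integral_inj_algHom_of_fg k R
  have hcountS : Countable S := hS.to_subtype
  have hex : ∀ s : S, ∃ p : MvPolynomial (Fin n) k, p ≠ 0 ∧ (s : R) ∣ g p := by
    intro s
    have hs0 : (s : R) ≠ 0 := fun h => h0 (h ▸ s.2)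
    let : Algebra (MvPolynomial (Fin n) k) R := g.toRingHom.toAlgebra
    have hint : IsIntegral (MvPolynomial (Fin n) k) (s : R) := hgint s
    have h1 := Ideal.comap_ne_bot_of_integral_mem (I := Ideal.span {(s : R)}) hs0
      (Ideal.mem_span_singleton_self _) hint
    obtain ⟨p, hp, hp0⟩ := Submodule.exists_mem_ne_zero_of_ne_bot h1
    exact ⟨p, hp0, Ideal.mem_span_singleton.1 hp⟩
  choose p hp hdvd using hex
  obtain ⟨y, hy⟩ := exists_forall_eval_ne_zero p hp
  let P : Ideal (MvPolynomial (Fin n) k) := RingHom.ker (eval y)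
  have hP : P.IsMaximal := RingHom.ker_isMaximal_of_surjective _
    (fun c => ⟨C c, eval_C c⟩)
  let : Algebra (MvPolynomial (Fin n) k) R := g.toRingHom.toAlgebra
  have : Algebra.IsIntegral (MvPolynomial (Fin n) k) R := ⟨hgint⟩
  obtain ⟨Q, hQ, hQP⟩ := Ideal.exists_ideal_over_maximal_of_isIntegral (S := R) P (by
    have : RingHom.ker (algebraMap (MvPolynomial (Fin n) k) R) = ⊥ :=
      (RingHom.injective_iff_ker_eq_bot _).1 hginj
    rw [this]; exact bot_le)
  obtain ⟨t, ht⟩ := exists_algHom_of_ne_top (k := k) Q hQ.ne_top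
  refine ⟨t, fun s hs hts => ?_⟩
  have hker : ∀ x, t x = 0 → x ∈ Q := by
    intro x hx
    have h1 : Q ≤ RingHom.ker t.toRingHom := fun x hx => ht x hx
    have h2 : RingHom.ker t.toRingHom ≠ ⊤ := RingHom.ker_ne_top _
    have h3 := hQ.eq_of_le h2 h1
    rw [h3]
    exact hx
  have h1 : s ∈ Q := hker s hts
  have h2 : g (p ⟨s, hs⟩) ∈ Q := Q.mem_of_dvd (hdvd ⟨s, hs⟩) h1
  have h3 : p ⟨s, hs⟩ ∈ Q.comap (algebraMap (MvPolynomial (Fin n) k) R) := h2
  rw [hQP] at h3
  exact hy ⟨s, hs⟩ h3

end Pool.Agent.Helper98.PCF
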