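import Mathlib
import Pool.Agent.Helper98.PCF.Descent
import Pool.Agent.Helper98.PCF.Generic

set_option autoImplicit false

namespace Pool.Agent.Helper98.PCF

open MvPolynomial

section Basic

variable {σ R : Type*} [CommRing R]

theorem hc_mul_of_isHomogeneous {A G : MvPolynomial σ R} {n d : ℕ} (hG : G.IsHomogeneous d) :
    homogeneousComponent (n + d) (A * G) = homogeneousComponent n A * G := by
  classical
  ext m
  rw [coeff_homogeneousComponent, coeff_mul, coeff_mul]
  have hGd : ∀ u, coeff u G ≠ 0 → u.degree = d := by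
    intro u hu
    have := hG hu
    rw [← this, Finsupp.degree_eq_weight_one]; rfl
  split_ifs with hm
  · refine Finset.sum_congr rfl fun x hx => ?_
    have hx' : x.1 + x.2 = m := Finset.HasAntidiagonal.mem_antidiagonal.1 hx
    have hdeg : x.1.degree + x.2.degree = n + d := by
      rw [← hm, ← hx', map_add]
    rw [coeff_homogeneousComponent]
    by_cases h2 : coeff x.2 G = 0
    · rw [h2, mul_zero, mul_zero]
    · have := hGd _ h2
      rw [if_pos (by omega)]
  · symm
    refine Finset.sum_eq_zero fun x hx => ?_
    have hx' : x.1 + x.2 = m := Finset.HasAntidiagonal.mem_antidiagonal.1 hx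
    rw [coeff_homogeneousComponent]
    by_cases h2 : coeff x.2 G = 0
    · rw [h2, mul_zero]
    · have h3 := hGd _ h2
      rw [if_neg, zero_mul]
      intro h1
      apply hm
      rw [← hx', map_add, h1, h3]

/-- `f` has degree at most `d` and its degree `d` forms have no common zero besides `0`. -/
def Regular (d : ℕ) (f : σ → MvPolynomial σ R) : Prop :=
  (∀ i, (f i).totalDegree ≤ d) ∧
    ∀ x : σ → R, (∀ i, eval x (homogeneousComponent d (f i)) = 0) → x = 0

/-- the leading forms -/
noncomputable def topf (d : ℕ) (f : σ → MvPolynomial σ R) : σ → MvPolynomial σ R :=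
  fun i => homogeneousComponent d (f i)

/-- the lower order terms -/
noncomputable def lowf (d : ℕ) (f : σ → MvPolynomial σ R) : σ → MvPolynomial σ R :=
  fun i => f i - homogeneousComponent d (f i)

theorem topf_add_lowf (d : ℕ) (f : σ → MvPolynomial σ R) (i : σ) :
    topf d f i + lowf d f i = f i := by
  simp [topf, lowf]

theorem topf_homogeneous (d : ℕ) (f : σ → MvPolynomial σ R) (i : σ) :
    (topf d f i).IsHomogeneous d := homogeneousComponent_isHomogeneous _ _

theorem lowf_totalDegree {d : ℕ} (hd : 0 < d) {f : σ → MvPolynomial σ R}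
    (hf : ∀ i, (f i).totalDegree ≤ d) (i : σ) : (lowf d f i).totalDegree < d := by
  classical
  rw [totalDegree, Finset.sup_lt_iff (by rw [bot_eq_zero]; exact hd)]
  intro a ha
  by_contra hge
  push Not at hge
  apply mem_support_iff.1 ha
  rw [lowf, coeff_sub, coeff_homogeneousComponent]
  have hge' : d ≤ a.degree := by rw [Finsupp.degree_apply]; exact hge
  rcases hge'.eq_or_lt with h | h
  · rw [if_pos h.symm, sub_self]
  · rw [if_neg h.ne', sub_zero]
    apply coeff_eq_zero_of_totalDegree_lt
    refine lt_of_le_of_lt (hf i) ?_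
    rw [Finsupp.degree_apply] at h
    exact h

theorem totalDegree_map_le' {S : Type*} [CommRing S] (φ : R →+* S) (p : MvPolynomial σ R) :
    (map φ p).totalDegree ≤ p.totalDegree := by
  classical
  exact Finset.sup_mono (support_map_subset _ _)

theorem topf_map {S : Type*} [CommRing S] (φ : R →+* S) (d : ℕ) (f : σ → MvPolynomial σ R)
    (i : σ) : topf d (fun i => map φ (f i)) i = map φ (topf d f i) := by
  ext m
  rw [topf, topf, coeff_homogeneousComponent, coeff_map, coeff_map, coeff_homogeneousComponent]
  split_ifs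
  · rfl
  · rw [map_zero]

theorem lowf_map {S : Type*} [CommRing S] (φ : R →+* S) (d : ℕ) (f : σ → MvPolynomial σ R)
    (i : σ) : lowf d (fun i => map φ (f i)) i = map φ (lowf d f i) := by
  have h := topf_map φ d f i
  rw [lowf, lowf, map_sub]
  congr 1

end Basic

section AlgClosed

variable {σ K : Type*} [Fintype σ] [Field K] [IsAlgClosed K]

/-- Nullstellensatz for forms -/
theorem Regular.regForms {d : ℕ} {f : σ → MvPolynomial σ K} (hf : Regular d f) :
    RegForms d (topf d f) := by
  classical
  refine ⟨topf_homogeneous d f, ?_⟩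
  have h1 : ∀ i, ∃ n : ℕ, (X i : MvPolynomial σ K) ^ n ∈ Ideal.span (Set.range (topf d f)) := by
    intro i
    have h2 : (X i : MvPolynomial σ K) ∈
        vanishingIdeal K (zeroLocus K (Ideal.span (Set.range (topf d f)))) := by
      intro x hx
      rw [zeroLocus_span] at hx
      have h3 : x = 0 := by
        apply hf.2 x
        intro j
        have := hx _ (Set.mem_range_self j)
        rw [aeval_eq_eval] at this
        exact this
      rw [h3, aeval_X, Pi.zero_apply]
    rw [vanishingIdeal_zeroLocus_eq_radical] at h2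
    exact h2
  choose n hn using h1
  refine ⟨Finset.univ.sup n + d + 1, by omega, by omega, fun i => ?_⟩
  have h2 : n i ≤ Finset.univ.sup n := Finset.le_sup (Finset.mem_univ i)
  have h3 : (X i : MvPolynomial σ K) ^ (Finset.univ.sup n + d + 1) ∈
      Ideal.span (Set.range (topf d f)) :=
    Ideal.pow_mem_of_pow_mem _ (hn i) (by omega)
  rw [Ideal.mem_span_range_iff_exists_fun] at h3
  obtain ⟨c, hc⟩ := h3
  refine ⟨fun j => homogeneousComponent (Finset.univ.sup n + d + 1 - d) (c j),
    fun j => homogeneousComponent_isHomogeneous _ _, ?_⟩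
  have h4 := congrArg (homogeneousComponent (Finset.univ.sup n + d + 1)) hc
  rw [map_sum, homogeneousComponent_eq_self (isHomogeneous_X_pow i _)] at h4
  rw [← h4]
  refine Finset.sum_congr rfl fun j _ => ?_
  have h5 := hc_mul_of_isHomogeneous (A := c j) (n := Finset.univ.sup n + d + 1 - d)
    (topf_homogeneous d f j)
  rw [← h5]
  congr 2
  omega

variable [DecidableEq σ] [CharZero K]

/-- regular polynomial maps are surjective -/
theorem exists_preimage {d : ℕ} {G L : σ → MvPolynomial σ K} (h : RegMap d G L) (w : σ → K) :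
    ∃ x : σ → K, ∀ i, eval x (G i + L i) = w i := by
  let φ : MvPolynomial σ K →ₐ[K] MvPolynomial σ K := aeval (fun i => G i + L i)
  have hinj : Function.Injective φ := by
    rw [injective_iff_map_eq_zero]
    intro p hp
    exact aeval_injective h p.totalDegree p le_rfl hp
  have hint := isIntegral_aeval h.pos h.reg h.low
  let P : Ideal (MvPolynomial σ K) := RingHom.ker (eval w)
  have hP : P.IsMaximal := RingHom.ker_isMaximal_of_surjective _ (fun c => ⟨C c, eval_C c⟩)
  obtain ⟨Q, hQ, hQP⟩ : ∃ Q : Ideal (MvPolynomial σ K), Q.IsMaximal ∧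
      Q.comap (φ : MvPolynomial σ K →+* MvPolynomial σ K) = P := by
    let : Algebra (MvPolynomial σ K) (MvPolynomial σ K) :=
      (φ : MvPolynomial σ K →+* MvPolynomial σ K).toAlgebra
    have : Algebra.IsIntegral (MvPolynomial σ K) (MvPolynomial σ K) := ⟨hint⟩
    obtain ⟨Q, hQ, hQP⟩ := Ideal.exists_ideal_over_maximal_of_isIntegral
      (S := MvPolynomial σ K) P (by
        have : RingHom.ker (algebraMap (MvPolynomial σ K) (MvPolynomial σ K)) = ⊥ :=
          (RingHom.injective_iff_ker_eq_bot _).1 hinj
        rw [this]; exact bot_le)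
    exact ⟨Q, hQ, hQP⟩
  obtain ⟨t, ht⟩ := exists_algHom_of_ne_top (k := K) Q hQ.ne_top
  refine ⟨fun i => t (X i), fun i => ?_⟩
  have h1 : ∀ p : MvPolynomial σ K, eval (fun i => t (X i)) p = t p := by
    intro p
    have h2 : (aeval fun i => t (X i) : MvPolynomial σ K →ₐ[K] K) = t := by
      apply MvPolynomial.algHom_ext
      intro j
      rw [aeval_X]
    have h3 := congrArg (fun g : MvPolynomial σ K →ₐ[K] K => g p) h2
    simp only [aeval_eq_eval] at h3
    exact h3
  rw [h1]
  have h2 : (X i - C (w i) : MvPolynomial σ K) ∈ P := by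
    show eval w (X i - C (w i)) = 0
    rw [map_sub, eval_X, eval_C, sub_self]
  rw [← hQP, Ideal.mem_comap] at h2
  have h3 := ht _ h2
  have h4 : (φ : MvPolynomial σ K →+* MvPolynomial σ K) (X i - C (w i)) =
      G i + L i - C (w i) := by
    show φ (X i - C (w i)) = _
    rw [map_sub]
    show aeval (fun i => G i + L i) (X i) - aeval (fun i => G i + L i) (C (w i)) = _
    rw [aeval_X, aeval_C]
    rfl
  rw [h4, map_sub, sub_eq_zero] at h3
  rw [h3]
  exact t.commutes (w i)

/-- regular polynomial maps of degree at least two have a fixed point -/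
theorem exists_fixed {d : ℕ} (hd : 2 ≤ d) {f : σ → MvPolynomial σ K} (hf : Regular d f) :
    ∃ x : σ → K, ∀ i, eval x (f i) = x i := by
  have h : RegMap d (topf d f) (fun i => lowf d f i - X i) := by
    refine ⟨by omega, hf.regForms, fun i => ?_⟩
    refine lt_of_le_of_lt (totalDegree_sub _ _) (max_lt (lowf_totalDegree (by omega) hf.1 i) ?_)
    rw [totalDegree_X]
    omega
  obtain ⟨x, hx⟩ := exists_preimage h 0
  refine ⟨x, fun i => ?_⟩
  have h1 := hx i
  rw [← add_sub_assoc, topf_add_lowf, map_sub, eval_X, Pi.zero_apply, sub_eq_zero] at h1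
  exact h1

end AlgClosed

end Pool.Agent.Helper98.PCF
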