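import Mathlib
import Pool.Agent.Helper98.PCF.Regular

set_option autoImplicit false

namespace Pool.Agent.Helper98.PCF

open MvPolynomial

section Val

variable {σ Ω : Type*} [Fintype σ] [Field Ω] (O : ValuationSubring Ω)

theorem sc_homogeneous {R : Type*} [CommRing R] {p : MvPolynomial σ R} {d : ℕ}
    (hp : p.IsHomogeneous d) (c : R) : sc c p = C (c ^ d) * p := by
  ext m
  rw [coeff_sc, coeff_C_mul]
  by_cases hm : coeff m p = 0
  · rw [hm, mul_zero, mul_zero]
  · have h1 : m.degree = d := by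
      have := hp hm
      rw [← this, Finsupp.degree_eq_weight_one]; rfl
    rw [h1]

theorem eval_smul_homogeneous {R : Type*} [CommRing R] {p : MvPolynomial σ R} {d : ℕ}
    (hp : p.IsHomogeneous d) (c : R) (x : σ → R) :
    eval (fun j => c * x j) p = c ^ d * eval x p := by
  rw [← eval_sc, sc_homogeneous hp, map_mul, eval_C]

/-- forms of degree `d` over the valuation ring, without common zero in the residue field -/
structure GoodForms (d : ℕ) (G : σ → MvPolynomial σ O) : Prop where
  hom : ∀ i, (G i).IsHomogeneous d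
  zero : ∀ z : σ → IsLocalRing.ResidueField O, (∀ i, eval z (map (res O) (G i)) = 0) → z = 0

variable {O}

theorem eval_inc (x : σ → O) (p : MvPolynomial σ O) :
    eval (fun j => (x j : Ω)) (map (inc O) p) = (eval x p : O) :=
  (map_eval (inc O) x p).symm

theorem eval_res (x : σ → O) (p : MvPolynomial σ O) :
    eval (fun j => res O (x j)) (map (res O) p) = res O (eval x p) :=
  (map_eval (res O) x p).symm

theorem GoodForms.exists_large [Nonempty σ] {d : ℕ} (hd : 0 < d) {G : σ → MvPolynomial σ O}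
    (hG : GoodForms O d G) (x : σ → Ω) :
    ∃ i₀, (∀ j, O.valuation (x j) ≤ O.valuation (x i₀)) ∧
      ∃ i, O.valuation (x i₀) ^ d ≤ O.valuation (eval x (map (inc O) (G i))) := by
  classical
  obtain ⟨i₀, -, hi₀⟩ := Finset.exists_max_image Finset.univ (fun j => O.valuation (x j))
    Finset.univ_nonempty
  refine ⟨i₀, fun j => hi₀ j (Finset.mem_univ j), ?_⟩
  by_cases h0 : x i₀ = 0
  · refine ⟨i₀, ?_⟩
    rw [h0, map_zero, zero_pow hd.ne']
    exact zero_le
  have hv0 : O.valuation (x i₀) ≠ 0 := (Valuation.ne_zero_iff _).2 h0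
  have hy : ∀ j, O.valuation ((x i₀)⁻¹ * x j) ≤ 1 := by
    intro j
    rw [map_mul, map_inv₀]
    calc (O.valuation (x i₀))⁻¹ * O.valuation (x j)
        ≤ (O.valuation (x i₀))⁻¹ * O.valuation (x i₀) :=
          mul_le_mul_right (hi₀ j (Finset.mem_univ j)) _
      _ = 1 := inv_mul_cancel₀ hv0
  let y : σ → O := fun j => ⟨(x i₀)⁻¹ * x j, (O.valuation_le_one_iff _).1 (hy j)⟩
  have hy1 : y i₀ = 1 := Subtype.ext (inv_mul_cancel₀ h0)
  obtain ⟨i, hi⟩ : ∃ i, eval (fun j => res O (y j)) (map (res O) (G i)) ≠ 0 := by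
    by_contra hcon
    push Not at hcon
    have := congrFun (hG.zero _ hcon) i₀
    rw [hy1, map_one] at this
    exact one_ne_zero this
  refine ⟨i, ?_⟩
  have h1 : O.valuation (eval y (G i) : O) = 1 := by
    rw [eval_res, Ne, IsLocalRing.residue_eq_zero_iff] at hi
    have h2 : ¬ O.valuation (eval y (G i) : O) < 1 := fun h =>
      hi ((O.valuation_lt_one_iff _).2 h)
    exact le_antisymm (O.valuation_le_one _) (not_lt.1 h2)
  have h2 : (fun j => x i₀ * (y j : Ω)) = x := by
    funext j
    show x i₀ * ((x i₀)⁻¹ * x j) = x j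
    rw [mul_inv_cancel_left₀ h0]
  have h3 := eval_smul_homogeneous ((hG.hom i).map (inc O)) (x i₀) (fun j => (y j : Ω))
  rw [h2, eval_inc] at h3
  rw [h3, map_mul, map_pow, h1, mul_one]

/-- good reduction: integral values come from integral points -/
theorem GoodForms.integral_of_values {d : ℕ} (hd : 0 < d) {G P : σ → MvPolynomial σ O}
    (hG : GoodForms O d G) (hP : ∀ i, (P i).totalDegree < d) {x : σ → Ω}
    (hx : ∀ i, O.valuation (eval x (map (inc O) (G i + P i))) ≤ 1) (i : σ) :
    O.valuation (x i) ≤ 1 := by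
  have : Nonempty σ := ⟨i⟩
  obtain ⟨i₀, hi₀, j, hj⟩ := hG.exists_large hd x
  refine (hi₀ i).trans ?_
  by_contra hlt
  push Not at hlt
  set γ := O.valuation (x i₀) with hγ
  have h1 : O.valuation (eval x (map (inc O) (P j))) ≤ γ ^ (d - 1) := by
    have h2 := val_aeval_le' (κ := O) O.valuation (x := x) (γ := γ)
      (fun c => (O.valuation_le_one_iff _).2 c.2) hi₀ hlt.le (p := P j) (e := d - 1)
      (by have := hP j; omega)
    rw [eval_map]
    exact h2
  have h2 : eval x (map (inc O) (G j)) = eval x (map (inc O) (G j + P j)) -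
      eval x (map (inc O) (P j)) := by
    rw [map_add, map_add]; ring
  have h3 : O.valuation (eval x (map (inc O) (G j))) ≤ γ ^ (d - 1) := by
    rw [h2]
    refine (Valuation.map_sub _ _ _).trans (max_le ?_ h1)
    exact (hx j).trans (one_le_pow_of_one_le' hlt.le _)
  have h4 : γ ^ (d - 1) < γ ^ d := pow_lt_pow_right₀ hlt (by omega)
  exact absurd (hj.trans h3) (not_le.2 h4)

/-- a linear map semiconjugating one integral homogeneous map to another one with good
reduction is integral. -/
theorem GoodForms.integral_of_semiconj [DecidableEq σ] {d : ℕ} (hd : 2 ≤ d)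
    {G G' : σ → MvPolynomial σ O} (hG : GoodForms O d G) {L : Matrix σ σ Ω}
    (hL : ∀ (x : σ → Ω) i, eval (L.mulVec x) (map (inc O) (G i)) =
      L.mulVec (fun j => eval x (map (inc O) (G' j))) i) (i j : σ) :
    O.valuation (L i j) ≤ 1 := by
  have : Nonempty σ := ⟨i⟩
  obtain ⟨⟨i₁, j₁⟩, -, hmax⟩ := Finset.exists_max_image (Finset.univ : Finset (σ × σ))
    (fun p => O.valuation (L p.1 p.2)) Finset.univ_nonempty
  refine (hmax (i, j) (Finset.mem_univ _)).trans ?_
  show O.valuation (L i₁ j₁) ≤ 1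
  by_contra hlt
  push Not at hlt
  set γ := O.valuation (L i₁ j₁) with hγ
  obtain ⟨m, hm, i₂, hi₂⟩ := hG.exists_large (by omega) (L.mulVec (Pi.single j₁ 1))
  have h1 : γ ≤ O.valuation (L.mulVec (Pi.single j₁ 1) m) := by
    have h0 := hm i₁
    have h00 : L.mulVec (Pi.single j₁ 1) i₁ = L i₁ j₁ := by
      rw [Matrix.mulVec_single_one, Matrix.col_apply]
    rwa [h00] at h0
  have h2 : O.valuation (L.mulVec
      (fun j => eval (Pi.single j₁ 1) (map (inc O) (G' j))) i₂) ≤ γ := by
    refine Valuation.map_sum_le _ fun j _ => ?_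
    rw [map_mul]
    have h3 : O.valuation (eval (Pi.single j₁ 1) (map (inc O) (G' j))) ≤ 1 := by
      have h4 : (Pi.single j₁ 1 : σ → Ω) = fun j => ((Pi.single j₁ 1 : σ → O) j : Ω) := by
        funext j
        rcases eq_or_ne j j₁ with rfl | h
        · simp
        · simp [h]
      rw [h4, eval_inc]
      exact O.valuation_le_one _
    calc O.valuation (L i₂ j) * O.valuation (eval (Pi.single j₁ 1) (map (inc O) (G' j)))
        ≤ γ * 1 := mul_le_mul' (hmax (i₂, j) (Finset.mem_univ _)) h3
      _ = γ := mul_one _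
  rw [hL] at hi₂
  have h3 : γ ^ d ≤ γ := (pow_le_pow_left' h1 d).trans (hi₂.trans h2)
  have h4 : γ ^ 1 < γ ^ d := pow_lt_pow_right₀ hlt (by omega)
  rw [pow_one] at h4
  exact absurd h3 (not_le.2 h4)

end Val

end Pool.Agent.Helper98.PCF
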