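import Mathlib
import Pool.Agent.Helper98.PCF.GoodRed

set_option autoImplicit false

namespace Pool.Agent.Helper98.PCF

open MvPolynomial

section Conj

variable {σ R : Type*} [Fintype σ] [CommRing R]

/-- the affine map `x ↦ L x + b`, as a family of polynomials -/
noncomputable def aff (L : Matrix σ σ R) (b : σ → R) (j : σ) : MvPolynomial σ R :=
  ∑ k, C (L j k) * X k + C (b j)

/-- `f ∘ α = α ∘ g` for the affine map `α x = L x + b`. -/
def IsConj (L : Matrix σ σ R) (b : σ → R) (f g : σ → MvPolynomial σ R) : Prop :=
  ∀ i, aeval (aff L b) (f i) = ∑ j, C (L i j) * g j + C (b i)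

theorem map_aff {S : Type*} [CommRing S] (φ : R →+* S) (L : Matrix σ σ R) (b : σ → R) (j : σ) :
    map φ (aff L b j) = aff (L.map φ) (fun i => φ (b i)) j := by
  simp [aff]

theorem isConj_map_iff {S : Type*} [CommRing S] {φ : R →+* S} (hφ : Function.Injective φ)
    {L : Matrix σ σ R} {b : σ → R} {f g : σ → MvPolynomial σ R} :
    IsConj (L.map φ) (fun i => φ (b i)) (fun i => map φ (f i)) (fun i => map φ (g i)) ↔
      IsConj L b f g := by
  have h1 : ∀ i, aeval (aff (L.map φ) (fun i => φ (b i))) (map φ (f i)) =
      map φ (aeval (aff L b) (f i)) := by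
    intro i
    rw [map_aeval_comm]
    congr 2
    funext j
    exact (map_aff φ L b j).symm
  have h2 : ∀ i, ∑ j, C ((L.map φ) i j) * map φ (g j) + C (φ (b i)) =
      map φ (∑ j, C (L i j) * g j + C (b i)) := by
    intro i
    simp
  constructor
  · intro h i
    have := h i
    rw [h1, h2] at this
    exact map_injective φ hφ this
  · intro h i
    rw [h1, h2, h i]

theorem IsConj.map {S : Type*} [CommRing S] (φ : R →+* S)
    {L : Matrix σ σ R} {b : σ → R} {f g : σ → MvPolynomial σ R} (h : IsConj L b f g) :
    IsConj (L.map φ) (fun i => φ (b i)) (fun i => MvPolynomial.map φ (f i))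
      (fun i => MvPolynomial.map φ (g i)) := by
  intro i
  have h1 : aeval (aff (L.map φ) (fun i => φ (b i))) (MvPolynomial.map φ (f i)) =
      MvPolynomial.map φ (aeval (aff L b) (f i)) := by
    rw [map_aeval_comm]
    congr 2
    funext j
    exact (map_aff φ L b j).symm
  rw [h1, h i]
  simp

theorem eval_aff (L : Matrix σ σ R) (b : σ → R) (x : σ → R) (j : σ) :
    eval x (aff L b j) = L.mulVec x j + b j := by
  simp [aff, Matrix.mulVec, dotProduct]

theorem IsConj.eval {L : Matrix σ σ R} {b : σ → R} {f g : σ → MvPolynomial σ R}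
    (h : IsConj L b f g) (x : σ → R) (i : σ) :
    MvPolynomial.eval (fun j => L.mulVec x j + b j) (f i) =
      L.mulVec (fun j => MvPolynomial.eval x (g j)) i + b i := by
  have h1 := congrArg (MvPolynomial.eval x) (h i)
  rw [eval_aeval_pts] at h1
  simp only [eval_aff] at h1
  rw [h1, map_add, map_sum, eval_C]
  simp only [map_mul, eval_C]
  rfl

theorem isConj_of_eval [IsDomain R] [Infinite R] {L : Matrix σ σ R} {b : σ → R}
    {f g : σ → MvPolynomial σ R}
    (h : ∀ x i, MvPolynomial.eval (fun j => L.mulVec x j + b j) (f i) =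
      L.mulVec (fun j => MvPolynomial.eval x (g j)) i + b i) : IsConj L b f g := by
  intro i
  apply MvPolynomial.funext
  intro x
  rw [eval_aeval_pts]
  simp only [eval_aff]
  rw [h, map_add, map_sum, eval_C]
  simp only [map_mul, eval_C]
  rfl

theorem totalDegree_aff_le (L : Matrix σ σ R) (b : σ → R) (j : σ) :
    (aff L b j).totalDegree ≤ 1 := by
  refine (totalDegree_add _ _).trans (max_le ?_ (by rw [totalDegree_C]; exact zero_le_one))
  refine totalDegree_finsetSum_le fun k _ => ?_
  refine (totalDegree_mul _ _).trans ?_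
  rw [totalDegree_C, zero_add]
  rcases subsingleton_or_nontrivial R with h | h
  · rw [Subsingleton.elim (X k : MvPolynomial σ R) 0, totalDegree_zero]
    exact zero_le_one
  · rw [totalDegree_X]

theorem hc_aff (L : Matrix σ σ R) (b : σ → R) (j : σ) :
    homogeneousComponent 1 (aff L b j) = ∑ k, C (L j k) * X k := by
  rw [aff, map_add, map_sum, hc_of_lt (by rw [totalDegree_C]; exact zero_lt_one), add_zero]
  refine Finset.sum_congr rfl fun k _ => ?_
  rw [homogeneousComponent_C_mul, homogeneousComponent_eq_self (isHomogeneous_X R k)]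

theorem IsConj.top {d : ℕ} (hd : 0 < d) {L : Matrix σ σ R} {b : σ → R}
    {f g : σ → MvPolynomial σ R} (h : IsConj L b f g) (hf : ∀ i, (f i).totalDegree ≤ d)
    (x : σ → R) (i : σ) :
    MvPolynomial.eval (L.mulVec x) (topf d f i) =
      L.mulVec (fun j => MvPolynomial.eval x (topf d g j)) i := by
  have h1 := congrArg (homogeneousComponent d) (h i)
  have h2 := hc_aeval (d := 1) zero_lt_one (totalDegree_aff_le L b) (f i) (hf i)
  rw [one_mul] at h2
  rw [h2] at h1
  have h3 := congrArg (MvPolynomial.eval x) h1
  rw [eval_aeval_pts, map_add, hc_of_lt (p := C (b i)) (by rw [totalDegree_C]; exact hd),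
    add_zero, map_sum, map_sum] at h3
  simp only [hc_aff, homogeneousComponent_C_mul, map_mul, eval_C, map_sum, eval_X] at h3
  exact h3

/-- affine conjugacy over a ring -/
def AffConj [DecidableEq σ] (f g : σ → MvPolynomial σ R) : Prop :=
  ∃ (L : Matrix σ σ R) (b : σ → R), IsUnit L.det ∧ IsConj L b f g

end Conj

section Descend

variable {σ : Type*} [Fintype σ] [DecidableEq σ]

/-- conjugacy over an extension of an algebraically closed field descends. -/
theorem AffConj.descend {k κ : Type*} [Field k] [IsAlgClosed k] [Field κ] (φ : k →+* κ)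
    {f g : σ → MvPolynomial σ k} (h : AffConj (fun i => map φ (f i)) (fun i => map φ (g i))) :
    AffConj f g := by
  classical
  obtain ⟨L, b, hL, hconj⟩ := h
  let : Algebra k κ := φ.toAlgebra
  let S : Finset κ := Finset.univ.image (fun p : σ × σ => L p.1 p.2) ∪ Finset.univ.image b ∪
    {L.det⁻¹}
  let R : Subalgebra k κ := Algebra.adjoin k (S : Set κ)
  have hRft : Algebra.FiniteType k R := by
    rw [← Subalgebra.fg_iff_finiteType]
    exact ⟨S, rfl⟩
  have hLR : ∀ i j, L i j ∈ R := fun i j => Algebra.subset_adjoin (by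
    simp only [S, Finset.coe_union, Finset.coe_image, Finset.coe_univ, Set.image_univ,
      Finset.coe_singleton]
    exact Or.inl (Or.inl ⟨(i, j), rfl⟩))
  have hbR : ∀ i, b i ∈ R := fun i => Algebra.subset_adjoin (by
    simp only [S, Finset.coe_union, Finset.coe_image, Finset.coe_univ, Set.image_univ,
      Finset.coe_singleton]
    exact Or.inl (Or.inr ⟨i, rfl⟩))
  have hδR : L.det⁻¹ ∈ R := Algebra.subset_adjoin (by
    simp only [S, Finset.coe_union, Finset.coe_image, Finset.coe_univ, Set.image_univ,
      Finset.coe_singleton]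
    exact Or.inr rfl)
  let LR : Matrix σ σ R := Matrix.of fun i j => ⟨L i j, hLR i j⟩
  let bR : σ → R := fun i => ⟨b i, hbR i⟩
  let val : R →+* κ := R.val.toRingHom
  have hval : Function.Injective val := Subtype.val_injective
  have hLmap : LR.map val = L := by ext i j; rfl
  have hφ : ∀ p : MvPolynomial σ k, map val (map (algebraMap k R) p) = map φ p := by
    intro p
    rw [map_map]
    rfl
  have h1 : IsConj LR bR (fun i => map (algebraMap k R) (f i))
      (fun i => map (algebraMap k R) (g i)) := by
    rw [← isConj_map_iff hval]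
    simp only [hφ, hLmap]
    exact hconj
  have h2 : IsUnit LR.det := by
    refine IsUnit.of_mul_eq_one ⟨L.det⁻¹, hδR⟩ (hval ?_)
    rw [map_mul, map_one, RingHom.map_det, RingHom.mapMatrix_apply, hLmap]
    exact mul_inv_cancel₀ hL.ne_zero
  obtain ⟨r, -⟩ := exists_algHom_of_ne_top (k := k) (R := R) ⊥ bot_ne_top
  have h3 := h1.map r.toRingHom
  have h4 : ∀ p : MvPolynomial σ k, map r.toRingHom (map (algebraMap k R) p) = p := by
    intro p
    rw [map_map]
    have : r.toRingHom.comp (algebraMap k R) = RingHom.id k := by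
      ext c
      exact r.commutes c
    rw [this, map_id]
  simp only [h4] at h3
  refine ⟨_, _, ?_, h3⟩
  have h5 := h2.map r.toRingHom
  rw [RingHom.map_det] at h5
  exact h5

end Descend

end Pool.Agent.Helper98.PCF
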