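import Mathlib
import Pool.Agent.Helper98.PCF.Conj

set_option autoImplicit false

namespace Pool.Agent.Helper98.PCF

open MvPolynomial

section Special

variable {σ : Type*} [Fintype σ] [DecidableEq σ]

theorem goodForms_of_regular {k Ω A : Type*} [Field k] [IsAlgClosed k] [Field Ω] [CommRing A]
    (O : ValuationSubring Ω) (tO : A →+* O) (ιO : k →+* O) (s : A →+* k)
    (hred : ∀ a, res O (tO a) = res O (ιO (s a))) {d : ℕ} {f : σ → MvPolynomial σ A}
    (hs : Regular d (fun i => map s (f i))) :
    GoodForms O d (fun i => map tO (topf d f i)) := by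
  refine ⟨fun i => (topf_homogeneous d f i).map _, fun z hz => ?_⟩
  have h1 : ∀ i, map (res O) (map tO (topf d f i)) =
      map ((res O).comp ιO) (topf d (fun i => map s (f i)) i) := by
    intro i
    rw [topf_map, map_map, map_map]
    have h0 : (res O).comp tO = ((res O).comp ιO).comp s := RingHom.ext hred
    rw [h0]
  have h2 := hs.regForms.map ((res O).comp ιO)
  refine h2.eq_zero_of_aeval z fun i => ?_
  rw [aeval_eq_eval, ← h1]
  exact hz i

/-- **Specialisation.** -/
theorem conj_specialize {k Ω A : Type*} [Field k] [IsAlgClosed k] [CharZero k] [Field Ω]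
    [Algebra k Ω] [CommRing A] [Algebra k A] (t : A →ₐ[k] Ω) (ht : Function.Injective t)
    (s : A →ₐ[k] k) {d : ℕ} (hd : 2 ≤ d) (f : σ → MvPolynomial σ A)
    (hf : ∀ i, (f i).totalDegree ≤ d) (hs : Regular d (fun i => map s.toRingHom (f i)))
    (g : σ → MvPolynomial σ k) (hg : Regular d g)
    (h : AffConj (fun i => map t.toRingHom (f i)) (fun i => map (algebraMap k Ω) (g i))) :
    AffConj (fun i => map s.toRingHom (f i)) g := by
  classical
  -- the dominating valuation ring
  obtain ⟨O, hO1, hO2⟩ : ∃ O : ValuationSubring Ω, (∀ a, t a ∈ O) ∧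
      ∀ a, s a = 0 → O.valuation (t a) < 1 := by
    let e : A ≃+* t.toRingHom.range := RingEquiv.ofBijective t.toRingHom.rangeRestrict
      ⟨fun a b hab => ht (congrArg Subtype.val hab), t.toRingHom.rangeRestrict_surjective⟩
    let I : Ideal t.toRingHom.range := RingHom.ker (s.toRingHom.comp (e.symm : _ →+* A))
    obtain ⟨O, h1, h2⟩ := Ideal.image_subset_nonunits_valuationSubring I (RingHom.ker_ne_top _)
    refine ⟨O, fun a => h1 ⟨a, rfl⟩, fun a ha => ?_⟩
    have h3 : t a ∈ O.nonunits := h2 ⟨e a, by
      show s (e.symm (e a)) = 0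
      rw [RingEquiv.symm_apply_apply]
      exact ha, rfl⟩
    exact (O.mem_nonunits_iff).1 h3
  let tO : A →+* O := t.toRingHom.codRestrict O.toSubring hO1
  let ιO : k →+* O := tO.comp (algebraMap k A)
  have hinct : (inc O).comp tO = t.toRingHom := by ext a; rfl
  have hincι : (inc O).comp ιO = algebraMap k Ω := by
    ext c
    exact t.commutes c
  have hred : ∀ a, res O (tO a) = res O (ιO (s a)) := by
    intro a
    rw [← sub_eq_zero, ← map_sub, IsLocalRing.residue_eq_zero_iff]
    refine (O.valuation_lt_one_iff _).2 ?_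
    have h1 : tO a - ιO (s a) = tO (a - algebraMap k A (s a)) := by
      rw [map_sub]; rfl
    rw [h1]
    refine hO2 _ ?_
    rw [map_sub, s.commutes]
    exact sub_self _
  have hG := goodForms_of_regular O tO ιO s.toRingHom hred hs
  have hG' : GoodForms O d (fun i => map ιO (topf d g i)) :=
    goodForms_of_regular O ιO ιO (RingHom.id k) (fun _ => rfl) (by
      simp only [map_id]
      exact hg)
  obtain ⟨L, b, hL, hconj⟩ := h
  have hLu := hL
  have hft : ∀ i, (map t.toRingHom (f i)).totalDegree ≤ d := fun i =>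
    (totalDegree_map_le' _ _).trans (hf i)
  -- top identity
  have htop : ∀ (x : σ → Ω) i, eval (L.mulVec x) (map (inc O) (map tO (topf d f i))) =
      L.mulVec (fun j => eval x (map (inc O) (map ιO (topf d g j)))) i := by
    intro x i
    have h1 := hconj.top (d := d) (by omega) hft x i
    simp only [topf_map] at h1
    simp only [map_map, hinct, hincι]
    exact h1
  have hLi := hG.integral_of_semiconj hd htop
  have hinv1 : L * L⁻¹ = 1 := Matrix.mul_nonsing_inv _ hL
  have hinv2 : L⁻¹ * L = 1 := Matrix.nonsing_inv_mul _ hL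
  have htop' : ∀ (x : σ → Ω) i, eval (L⁻¹.mulVec x) (map (inc O) (map ιO (topf d g i))) =
      L⁻¹.mulVec (fun j => eval x (map (inc O) (map tO (topf d f j)))) i := by
    intro x i
    have h1 : (fun j => eval x (map (inc O) (map tO (topf d f j)))) =
        L.mulVec (fun j => eval (L⁻¹.mulVec x) (map (inc O) (map ιO (topf d g j)))) := by
      funext j
      rw [← htop, Matrix.mulVec_mulVec, hinv1, Matrix.one_mulVec]
    rw [h1, Matrix.mulVec_mulVec, hinv2, Matrix.one_mulVec]
  have hLi' := hG'.integral_of_semiconj hd htop'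
  -- fixed point
  obtain ⟨x₀, hx₀⟩ := exists_fixed hd hg
  set xΩ : σ → Ω := fun j => algebraMap k Ω (x₀ j) with hxΩ
  set y : σ → Ω := fun j => L.mulVec xΩ j + b j with hy
  have hfix : ∀ i, eval y (map t.toRingHom (f i)) = y i := by
    intro i
    rw [hy, hconj.eval xΩ i]
    have h1 : (fun j => eval xΩ (map (algebraMap k Ω) (g j))) = xΩ := by
      funext j
      have := (map_eval (algebraMap k Ω) x₀ (g j)).symm
      rw [hx₀] at this
      exact this
    rw [h1]
  have hyi : ∀ i, O.valuation (y i) ≤ 1 := by
    refine hG.integral_of_values (by omega) (P := fun i => map tO (lowf d f i) - X i) ?_ ?_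
    · intro i
      refine lt_of_le_of_lt (totalDegree_sub _ _) (max_lt ?_ ?_)
      · exact lt_of_le_of_lt (totalDegree_map_le' _ _) (lowf_totalDegree (by omega) hf i)
      · rw [totalDegree_X]; omega
    · intro i
      have h1 : map (inc O) (map tO (topf d f i) + (map tO (lowf d f i) - X i)) =
          map t.toRingHom (f i) - X i := by
        rw [← add_sub_assoc, ← map_add, topf_add_lowf, map_sub, map_map, hinct, map_X]
      rw [h1, map_sub, hfix, eval_X, sub_self, map_zero]
      exact zero_le_one
  have hxi : ∀ j, O.valuation (xΩ j) ≤ 1 := by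
    intro j
    rw [O.valuation_le_one_iff]
    have := (ιO (x₀ j)).2
    have h2 : ((ιO (x₀ j) : O) : Ω) = xΩ j := RingHom.congr_fun hincι (x₀ j)
    rw [← h2]
    exact this
  have hbi : ∀ i, O.valuation (b i) ≤ 1 := by
    intro i
    have h1 : b i = y i - L.mulVec xΩ i := by rw [hy]; ring
    rw [h1]
    refine (Valuation.map_sub _ _ _).trans (max_le (hyi i) ?_)
    refine Valuation.map_sum_le _ fun j _ => ?_
    rw [map_mul]
    exact mul_le_one' (hLi i j) (hxi j)
  -- the conjugacy over `O`
  let LO : Matrix σ σ O := Matrix.of fun i j => ⟨L i j, (O.valuation_le_one_iff _).1 (hLi i j)⟩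
  let LO' : Matrix σ σ O := Matrix.of fun i j =>
    ⟨L⁻¹ i j, (O.valuation_le_one_iff _).1 (hLi' i j)⟩
  let bO : σ → O := fun i => ⟨b i, (O.valuation_le_one_iff _).1 (hbi i)⟩
  have hLO : LO.map (inc O) = L := by ext i j; rfl
  have hLO' : LO'.map (inc O) = L⁻¹ := by ext i j; rfl
  have hmul : LO * LO' = 1 := by
    have h1 : (LO * LO').map (inc O) = (1 : Matrix σ σ O).map (inc O) := by
      rw [Matrix.map_mul, hLO, hLO', hinv1, Matrix.map_one _ (map_zero _) (map_one _)]
    ext i j
    exact congrFun (congrFun h1 i) j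
  have hdet : IsUnit LO.det := by
    refine IsUnit.of_mul_eq_one LO'.det ?_
    rw [← Matrix.det_mul, hmul, Matrix.det_one]
  have hconjO : IsConj LO bO (fun i => map tO (f i)) (fun i => map ιO (g i)) := by
    rw [← isConj_map_iff (inc_injective O)]
    simp only [map_map, hinct, hincι, hLO]
    exact hconj
  -- reduction
  have hconjκ := hconjO.map (res O)
  have h1 : ∀ i, map (res O) (map tO (f i)) = map ((res O).comp ιO) (map s.toRingHom (f i)) := by
    intro i
    rw [map_map, map_map]
    have h0 : (res O).comp tO = ((res O).comp ιO).comp s.toRingHom := RingHom.ext hred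
    rw [h0]
  have h2 : ∀ i, map (res O) (map ιO (g i)) = map ((res O).comp ιO) (g i) := by
    intro i
    rw [map_map]
  simp only [h1, h2] at hconjκ
  refine AffConj.descend ((res O).comp ιO) ⟨_, _, ?_, hconjκ⟩
  have h3 := hdet.map (res O)
  rw [RingHom.map_det] at h3
  exact h3

end Special

end Pool.Agent.Helper98.PCF
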