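import Mathlib
import Pool.Agent.Helper98.PCF.Special

set_option autoImplicit false

namespace Pool.Agent.Helper98.PCF

open MvPolynomial

/-- Countable algebraically closed subfields. -/
theorem exists_small_field {Ω : Type*} [Field Ω] [IsAlgClosed Ω] (S : Set Ω) (hS : S.Countable) :
    ∃ k₀ : Subfield Ω, S ⊆ k₀ ∧ Countable k₀ ∧ IsAlgClosed k₀ := by
  let F := Subfield.closure S
  have hF : Countable F := by
    rw [← Cardinal.mk_le_aleph0_iff]
    refine (Subfield.cardinalMk_closure_le_max S).trans (max_le ?_ le_rfl)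
    rw [Cardinal.mk_le_aleph0_iff]
    exact hS.to_subtype
  let K := algebraicClosure F Ω
  have hK : Countable K := by
    rw [← Cardinal.mk_le_aleph0_iff]
    refine (Algebra.IsAlgebraic.cardinalMk_le_max F K).trans (max_le ?_ le_rfl)
    rw [Cardinal.mk_le_aleph0_iff]
    exact hF
  refine ⟨K.toSubfield, fun x hx => ?_, hK, ?_⟩
  · have : x ∈ F := Subfield.subset_closure hx
    exact K.algebraMap_mem ⟨x, this⟩
  · have : IsAlgClosed K := IsAlgClosure.isAlgClosed F
    exact this

section

variable {σ : Type*} [Fintype σ] [DecidableEq σ]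

/-- regularity generalises -/
theorem regular_generalize {k Ω A : Type*} [Field k] [IsAlgClosed k] [CharZero k] [Field Ω]
    [Algebra k Ω] [CommRing A] [Algebra k A] (t : A →ₐ[k] Ω) (ht : Function.Injective t)
    (s : A →ₐ[k] k) {d : ℕ} (hd : 2 ≤ d) (f : σ → MvPolynomial σ A)
    (hf : ∀ i, (f i).totalDegree ≤ d) (hs : Regular d (fun i => map s.toRingHom (f i))) :
    Regular d (fun i => map t.toRingHom (f i)) := by
  classical
  refine ⟨fun i => (totalDegree_map_le' _ _).trans (hf i), fun x hx => ?_⟩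
  by_contra hx0
  obtain ⟨j, hj⟩ : ∃ j, x j ≠ 0 := by
    by_contra hcon
    push Not at hcon
    exact hx0 (funext hcon)
  have : Nonempty σ := ⟨j⟩
  -- the dominating valuation ring
  obtain ⟨O, hO1, hO2⟩ : ∃ O : ValuationSubring Ω, (∀ a, t a ∈ O) ∧
      ∀ a, s a = 0 → O.valuation (t a) < 1 := by
    let e : A ≃+* t.toRingHom.range := RingEquiv.ofBijective t.toRingHom.rangeRestrict
      ⟨fun a b hab => ht (congrArg Subtype.val hab), t.toRingHom.rangeRestrict_surjective⟩
    let I : Ideal t.toRingHom.range := RingHom.ker (s.toRingHom.comp (e.symm : _ →+* A))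
    obtain ⟨O, h1, h2⟩ := Ideal.image_subset_nonunits_valuationSubring I (RingHom.ker_ne_top _)
    refine ⟨O, fun a => h1 ⟨a, rfl⟩, fun a ha => ?_⟩
    have h3 : t a ∈ O.nonunits := h2 ⟨e a, by
      show s (e.symm (e a)) = 0
      rw [RingEquiv.symm_apply_apply]
      exact ha, rfl⟩
    exact (O.mem_nonunits_iff).1 h3
  let tO : A →+* O := t.toRingHom.codRestrict O.toSubring hO1
  let ιO : k →+* O := tO.comp (algebraMap k A)
  have hinct : (inc O).comp tO = t.toRingHom := by ext a; rfl
  have hred : ∀ a, res O (tO a) = res O (ιO (s a)) := by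
    intro a
    rw [← sub_eq_zero, ← map_sub, IsLocalRing.residue_eq_zero_iff]
    refine (O.valuation_lt_one_iff _).2 ?_
    have h1 : tO a - ιO (s a) = tO (a - algebraMap k A (s a)) := by
      rw [map_sub]; rfl
    rw [h1]
    refine hO2 _ ?_
    rw [map_sub, s.commutes]
    exact sub_self _
  have hG := goodForms_of_regular O tO ιO s.toRingHom hred hs
  obtain ⟨i₀, hi₀, i, hi⟩ := hG.exists_large (by omega) x
  have h1 : eval x (map (inc O) (map tO (topf d f i))) = 0 := by
    rw [map_map, hinct]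
    have h2 := hx i
    have h3 := topf_map t.toRingHom d f i
    rw [← h3]
    exact h2
  rw [h1, map_zero] at hi
  have h2 : O.valuation (x i₀) ^ d = 0 := le_antisymm hi zero_le
  have h3 : O.valuation (x i₀) = 0 := by
    exact (pow_eq_zero_iff (by omega)).1 h2
  have h4 := hi₀ j
  rw [h3] at h4
  have h5 : O.valuation (x j) = 0 := le_antisymm h4 zero_le
  exact hj ((Valuation.zero_iff _).1 h5)

end

section Normalise

variable {σ Ω : Type*} [Fintype σ] [DecidableEq σ] [Field Ω] [IsAlgClosed Ω] [CharZero Ω]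

/-- Removing the scalar in the conjugacy of the leading forms. -/
theorem exists_top_conj {d : ℕ} (hd : 2 ≤ d) {G G' : σ → MvPolynomial σ Ω}
    (hG : ∀ i, (G i).IsHomogeneous d)
    {A : Matrix σ σ Ω} (hA : IsUnit A.det) {c : Ω} (hc : c ≠ 0)
    (h : ∀ (x : σ → Ω) i, eval (A.mulVec x) (G i) = c * A.mulVec (fun j => eval x (G' j)) i) :
    ∃ L : Matrix σ σ Ω, IsUnit L.det ∧
      ∀ (x : σ → Ω) i, eval (L.mulVec x) (G i) = L.mulVec (fun j => eval x (G' j)) i := by
  obtain ⟨μ, hμ⟩ := IsAlgClosed.exists_pow_nat_eq c⁻¹ (n := d - 1) (by omega)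
  have hμ0 : μ ≠ 0 := by
    intro h0
    rw [h0, zero_pow (by omega)] at hμ
    exact inv_ne_zero hc hμ.symm
  refine ⟨μ • A, ?_, fun x i => ?_⟩
  · rw [Matrix.det_smul]
    exact IsUnit.mul ((IsUnit.mk0 _ (pow_ne_zero _ hμ0))) hA
  · have h1 : (μ • A).mulVec x = fun j => μ * A.mulVec x j := by
      rw [Matrix.smul_mulVec]; rfl
    rw [h1, eval_smul_homogeneous (hG i), h, Matrix.smul_mulVec]
    show _ = μ * _
    have h2 : μ ^ d * c = μ := by
      have : μ ^ d = μ ^ (d - 1) * μ := by rw [← pow_succ]; congr 1; omega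
      rw [this, hμ]
      field_simp
    rw [← mul_assoc, h2]

/-- conjugate of `f` by `x ↦ L x + b` -/
noncomputable def conjBy (L : Matrix σ σ Ω) (b : σ → Ω) (f : σ → MvPolynomial σ Ω) :
    σ → MvPolynomial σ Ω :=
  fun i => ∑ j, C (L⁻¹ i j) * (aeval (aff L b) (f j) - C (b j))

theorem isConj_conjBy {L : Matrix σ σ Ω} (hL : IsUnit L.det) (b : σ → Ω)
    (f : σ → MvPolynomial σ Ω) : IsConj L b f (conjBy L b f) := by
  intro i
  have h1 : ∑ j, C (L i j) * conjBy L b f j =
      ∑ k, (∑ j, C (L i j) * C (L⁻¹ j k)) * (aeval (aff L b) (f k) - C (b k)) := by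
    simp only [conjBy, Finset.mul_sum, Finset.sum_mul]
    rw [Finset.sum_comm]
    refine Finset.sum_congr rfl fun k _ => Finset.sum_congr rfl fun j _ => by ring
  have h2 : ∀ k, (∑ j, C (L i j) * C (L⁻¹ j k) : MvPolynomial σ Ω) =
      C ((1 : Matrix σ σ Ω) i k) := by
    intro k
    rw [← Matrix.mul_nonsing_inv L hL, Matrix.mul_apply, map_sum]
    exact Finset.sum_congr rfl fun j _ => (C_mul).symm
  rw [h1]
  simp only [h2, Matrix.one_apply]
  rw [Finset.sum_eq_single i]
  · rw [if_pos rfl, C_1, one_mul, sub_add_cancel]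
  · intro j _ hj
    rw [if_neg (Ne.symm hj), C_0, zero_mul]
  · intro h
    exact absurd (Finset.mem_univ i) h

theorem totalDegree_conjBy_le {d : ℕ} {L : Matrix σ σ Ω} {b : σ → Ω}
    {f : σ → MvPolynomial σ Ω} (hf : ∀ i, (f i).totalDegree ≤ d) (i : σ) :
    (conjBy L b f i).totalDegree ≤ d := by
  refine totalDegree_finsetSum_le fun j _ => ?_
  refine (totalDegree_mul _ _).trans ?_
  rw [totalDegree_C, zero_add]
  refine (totalDegree_sub _ _).trans (max_le ?_ (by rw [totalDegree_C]; exact Nat.zero_le _))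
  have := totalDegree_aeval_le (totalDegree_aff_le L b) (f j) (hf j)
  rwa [one_mul] at this

/-- chain rule for conjugate maps -/
theorem IsConj.jac_eq_zero {L : Matrix σ σ Ω} {b : σ → Ω} (hL : IsUnit L.det)
    {f g : σ → MvPolynomial σ Ω} (h : IsConj L b f g) {x : σ → Ω}
    (hx : MvPolynomial.eval x (jac g).det = 0) :
    MvPolynomial.eval (fun j => L.mulVec x j + b j) (jac f).det = 0 := by
  -- `(jac f)(α) * L = L * jac g`
  have h1 : (jac f).map (aeval (aff L b)) * L.map (C : Ω →+* MvPolynomial σ Ω) =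
      L.map (C : Ω →+* MvPolynomial σ Ω) * jac g := by
    ext1 i j
    have h2 := congrArg (pderiv j) (h i)
    rw [deriv_aeval, map_add, map_sum, pderiv_C, add_zero] at h2
    rw [Matrix.mul_apply, Matrix.mul_apply]
    have h3 : ∀ k, pderiv j (aff L b k) = C (L k j) := by
      intro k
      rw [aff, map_add, map_sum, pderiv_C, add_zero, Finset.sum_eq_single j]
      · rw [pderiv_C_mul, pderiv_X_self, mul_one]
      · intro m _ hm
        rw [pderiv_C_mul, pderiv_X_of_ne hm, mul_zero]
      · intro h; exact absurd (Finset.mem_univ j) h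
    calc _ = ∑ k, aeval (aff L b) (pderiv k (f i)) * pderiv j (aff L b k) :=
          Finset.sum_congr rfl fun k _ => by rw [h3]; rfl
      _ = ∑ k, pderiv j (C (L i k) * g k) := h2
      _ = _ := Finset.sum_congr rfl fun k _ => by rw [pderiv_C_mul]; rfl
  have h2 := congrArg Matrix.det h1
  rw [Matrix.det_mul, Matrix.det_mul] at h2
  have h3 : ((jac f).map (aeval (aff L b))).det = aeval (aff L b) (jac f).det := by
    have := RingHom.map_det (aeval (aff L b) : MvPolynomial σ Ω →ₐ[Ω] MvPolynomial σ Ω).toRingHom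
      (jac f)
    exact this.symm
  have h4 : (L.map (C : Ω →+* MvPolynomial σ Ω)).det = C L.det := by
    have := RingHom.map_det (C : Ω →+* MvPolynomial σ Ω) L
    exact this.symm
  rw [h3, h4] at h2
  have h5 := congrArg (MvPolynomial.eval x) h2
  rw [map_mul, map_mul, eval_C, hx, mul_zero, eval_aeval_pts] at h5
  simp only [eval_aff] at h5
  exact (mul_eq_zero.1 h5).resolve_right hL.ne_zero

theorem IsConj.iterate {L : Matrix σ σ Ω} {b : σ → Ω}
    {f g : σ → MvPolynomial σ Ω} (h : IsConj L b f g) (x : σ → Ω) (n : ℕ) :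
    (pmap f)^[n] (fun j => L.mulVec x j + b j) = fun j => L.mulVec ((pmap g)^[n] x) j + b j := by
  induction n with
  | zero => rfl
  | succ n ih =>
    rw [Function.iterate_succ_apply', Function.iterate_succ_apply', ih]
    funext i
    exact h.eval _ i

theorem IsConj.kills {L : Matrix σ σ Ω} {b : σ → Ω} (hL : IsUnit L.det)
    {f g : σ → MvPolynomial σ Ω} (h : IsConj L b f g) {Q : MvPolynomial σ Ω} (hQ : Q ≠ 0)
    (hf : Kills f Q) : ∃ Q' : MvPolynomial σ Ω, Q' ≠ 0 ∧ Kills g Q' := by
  refine ⟨aeval (aff L b) Q, ?_, ?_⟩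
  · intro h0
    apply hQ
    apply MvPolynomial.funext
    intro y
    have h1 := congrArg (MvPolynomial.eval (L⁻¹.mulVec (y - b))) h0
    rw [eval_aeval_pts] at h1
    simp only [eval_aff] at h1
    rw [Matrix.mulVec_mulVec, Matrix.mul_nonsing_inv L hL, Matrix.one_mulVec] at h1
    have h2 : (fun j => (y - b) j + b j) = y := by
      funext j
      simp
    rw [h2, map_zero] at h1
    rw [h1, map_zero]
  · intro x hx n hn
    have h1 := hf _ (h.jac_eq_zero hL hx) n hn
    rw [h.iterate] at h1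
    rw [eval_aeval_pts]
    simp only [eval_aff]
    exact h1

end Normalise

end Pool.Agent.Helper98.PCF
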