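import Mathlib
import Pool.Agent.Helper98.PCF.Family

set_option autoImplicit false

namespace Pool.Agent.Helper98.PCF

open MvPolynomial

theorem exists_lift_of_mem {σ R S : Type*} [CommRing R] [CommRing S] (φ : R →+* S)
    (p : MvPolynomial σ S) (h : ∀ m, coeff m p ∈ φ.range) : ∃ q, map φ q = p := by
  classical
  choose g hg using h
  refine ⟨∑ m ∈ p.support, monomial m (g m), ?_⟩
  rw [map_sum]
  conv_rhs => rw [← support_sum_monomial_coeff p]
  refine Finset.sum_congr rfl fun m _ => ?_
  rw [map_monomial, hg]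

theorem exists_factor {k Ω A : Type*} [Field k] [Field Ω] [Algebra k Ω] [CommRing A] [Algebra k A]
    (φ : A →ₐ[k] Ω) (h : ∀ a, φ a ∈ (algebraMap k Ω).range) :
    ∃ s : A →ₐ[k] k, ∀ a, algebraMap k Ω (s a) = φ a := by
  choose g hg using h
  have hinj : Function.Injective (algebraMap k Ω) := (algebraMap k Ω).injective
  refine ⟨{ toFun := g
            map_one' := hinj (by rw [hg, map_one, map_one])
            map_zero' := hinj (by rw [hg, map_zero, map_zero])
            map_mul' := fun a b => hinj (by rw [hg, map_mul, map_mul, hg, hg])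
            map_add' := fun a b => hinj (by rw [hg, map_add, map_add, hg, hg])
            commutes' := fun c => hinj (by rw [hg, φ.commutes]; rfl) }, hg⟩

theorem totalDegree_map_eq {σ R S : Type*} [CommRing R] [CommRing S] {φ : R →+* S}
    (hφ : Function.Injective φ) (p : MvPolynomial σ R) :
    (map φ p).totalDegree = p.totalDegree := by
  unfold totalDegree
  rw [support_map_of_injective _ hφ]

theorem Regular.of_map {σ R S : Type*} [CommRing R] [CommRing S] {φ : R →+* S}
    (hφ : Function.Injective φ) {d : ℕ} {f : σ → MvPolynomial σ R}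
    (h : Regular d (fun i => map φ (f i))) : Regular d f := by
  refine ⟨fun i => ?_, fun x hx => ?_⟩
  · rw [← totalDegree_map_eq hφ]
    exact h.1 i
  · have h1 := h.2 (fun j => φ (x j)) (fun i => ?_)
    · funext j
      apply hφ
      have := congrFun h1 j
      rw [Pi.zero_apply] at this ⊢
      rw [this, map_zero]
    · have h2 := topf_map φ d f i
      have h3 := (map_eval φ x (topf d f i)).symm
      show eval (fun j => φ (x j)) (topf d (fun i => map φ (f i)) i) = 0
      rw [h2]
      have h4 : eval x (topf d f i) = 0 := hx i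
      rw [h4, map_zero] at h3
      exact h3

theorem AffConj.map {σ R S : Type*} [Fintype σ] [DecidableEq σ] [CommRing R] [CommRing S]
    (φ : R →+* S) {f g : σ → MvPolynomial σ R} (h : AffConj f g) :
    AffConj (fun i => MvPolynomial.map φ (f i)) (fun i => MvPolynomial.map φ (g i)) := by
  obtain ⟨L, b, hL, hc⟩ := h
  refine ⟨_, _, ?_, hc.map φ⟩
  have h3 := hL.map φ
  rw [RingHom.map_det] at h3
  exact h3

section Core

variable {σ : Type*} [Fintype σ] [DecidableEq σ]

/-- conjugacy of the leading forms, up to a scalar -/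
def TopConj {Ω : Type*} [Field Ω] (G G' : σ → MvPolynomial σ Ω) : Prop :=
  ∃ (A : Matrix σ σ Ω) (c : Ω), IsUnit A.det ∧ c ≠ 0 ∧
    ∀ (x : σ → Ω) i, eval (A.mulVec x) (G i) = c * A.mulVec (fun j => eval x (G' j)) i

theorem exists_model {k Ω B : Type*} [Field k] [IsAlgClosed k] [CharZero k] [Countable k]
    [Field Ω] [IsAlgClosed Ω] [CharZero Ω] [Uncountable Ω] [Algebra k Ω] [CommRing B]
    [IsDomain B] [Algebra Ω B] [Algebra.FiniteType Ω B] [Algebra k B] [IsScalarTower k Ω B]
    {d : ℕ} (hd : 2 ≤ d) (f : σ → MvPolynomial σ B) (hf : ∀ i, (f i).totalDegree ≤ d)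
    (hK : ∀ t : B →ₐ[Ω] Ω, Regular d (fun i => map t.toRingHom (f i)) →
      ∃ Q : MvPolynomial σ Ω, Q ≠ 0 ∧ Kills (fun i => map t.toRingHom (f i)) Q)
    (hπ : ∀ s t : B →ₐ[Ω] Ω, Regular d (fun i => map s.toRingHom (f i)) →
      Regular d (fun i => map t.toRingHom (f i)) →
      TopConj (topf d (fun i => map t.toRingHom (f i))) (topf d (fun i => map s.toRingHom (f i))))
    (s₁ : B →ₐ[Ω] Ω) (h₁ : Regular d (fun i => map s₁.toRingHom (f i)))
    (hk₁ : ∀ i m, s₁ (coeff m (f i)) ∈ (algebraMap k Ω).range) :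
    ∃ g : σ → MvPolynomial σ k, ∀ s : B →ₐ[Ω] Ω, Regular d (fun i => map s.toRingHom (f i)) →
      (∀ i m, s (coeff m (f i)) ∈ (algebraMap k Ω).range) →
      AffConj (fun i => map s.toRingHom (f i)) (fun i => map (algebraMap k Ω) (g i)) := by
  classical
  have hinjk : Function.Injective (algebraMap k Ω) := (algebraMap k Ω).injective
  -- the subalgebra of coefficients
  let T : Set B := Set.range (fun p : σ × (σ →₀ ℕ) => coeff p.2 (f p.1))
  have hT : Countable T := (Set.countable_range _).to_subtype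
  let A₀ : Subalgebra k B := Algebra.adjoin k T
  have hA₀ : Countable A₀ := by
    rw [← Cardinal.mk_le_aleph0_iff]
    have h1 := Algebra.lift_cardinalMk_adjoin_le k T
    have h2 : Cardinal.mk k ≤ Cardinal.aleph0 := Cardinal.mk_le_aleph0_iff.2 inferInstance
    have h3 : Cardinal.mk T ≤ Cardinal.aleph0 := Cardinal.mk_le_aleph0_iff.2 hT
    have h4 := h1.trans (max_le (max_le (Cardinal.lift_le_aleph0.2 h2)
      (Cardinal.lift_le_aleph0.2 h3)) le_rfl)
    exact Cardinal.lift_le_aleph0.1 h4
  have hcoef : ∀ i m, coeff m (f i) ∈ A₀ := fun i m => Algebra.subset_adjoin ⟨(i, m), rfl⟩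
  have hex : ∀ i, ∃ q : MvPolynomial σ A₀, map A₀.val.toRingHom q = f i := fun i =>
    exists_lift_of_mem _ _ fun m => ⟨⟨_, hcoef i m⟩, rfl⟩
  choose f₀ hf₀ using hex
  have hvalinj : Function.Injective A₀.val.toRingHom := Subtype.val_injective
  have hf₀d : ∀ i, (f₀ i).totalDegree ≤ d := by
    intro i
    rw [← totalDegree_map_eq hvalinj, hf₀]
    exact hf i
  -- points with values in `k`
  have hpt : ∀ s : B →ₐ[Ω] Ω, (∀ i m, s (coeff m (f i)) ∈ (algebraMap k Ω).range) →
      ∃ s₀ : A₀ →ₐ[k] k, ∀ i, map s.toRingHom (f i) =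
        map (algebraMap k Ω) (map s₀.toRingHom (f₀ i)) := by
    intro s hs
    have h1 : A₀ ≤ (⊥ : Subalgebra k Ω).comap (s.restrictScalars k) := by
      rw [Algebra.adjoin_le_iff]
      rintro _ ⟨⟨i, m⟩, rfl⟩
      obtain ⟨c, hc⟩ := hs i m
      show s (coeff m (f i)) ∈ (⊥ : Subalgebra k Ω)
      rw [Algebra.mem_bot]
      exact ⟨c, hc⟩
    obtain ⟨s₀, hs₀⟩ := exists_factor ((s.restrictScalars k).comp A₀.val) (fun a => by
      have h2 := h1 a.2
      have h3 : s (a : B) ∈ (⊥ : Subalgebra k Ω) := h2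
      rw [Algebra.mem_bot] at h3
      exact h3)
    refine ⟨s₀, fun i => ?_⟩
    rw [map_map, ← hf₀ i, map_map]
    have h4 : s.toRingHom.comp A₀.val.toRingHom = (algebraMap k Ω).comp s₀.toRingHom := by
      ext a
      exact (hs₀ a).symm
    rw [h4]
  -- the generic point
  obtain ⟨t, ht⟩ := exists_generic_point (k := Ω) (R := B) (S := (A₀ : Set B) \ {0})
    (Set.Countable.mono Set.sdiff_subset (Set.countable_coe_iff.1 hA₀)) (fun h => h.2 rfl)
  let t₀ : A₀ →ₐ[k] Ω := (t.restrictScalars k).comp A₀.val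
  have ht₀ : Function.Injective t₀ := by
    rw [injective_iff_map_eq_zero]
    intro a ha
    by_contra hne
    exact ht a ⟨a.2, fun h => hne (Subtype.ext h)⟩ ha
  have ht₀f : ∀ i, map t.toRingHom (f i) = map t₀.toRingHom (f₀ i) := by
    intro i
    rw [← hf₀ i, map_map]
    rfl
  obtain ⟨s₁₀, hs₁₀⟩ := hpt s₁ hk₁
  have hreg₁₀ : Regular d (fun i => map s₁₀.toRingHom (f₀ i)) := by
    apply Regular.of_map hinjk
    simp only [← hs₁₀]
    exact h₁
  have hregt : Regular d (fun i => map t.toRingHom (f i)) := by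
    simp only [ht₀f]
    exact regular_generalize t₀ ht₀ s₁₀ hd f₀ hf₀d hreg₁₀
  -- normalisation
  obtain ⟨A, c, hA, hc, hAc⟩ := hπ s₁ t h₁ hregt
  obtain ⟨L, hL, hLtop⟩ := exists_top_conj hd (topf_homogeneous d _) hA hc hAc
  set ft : σ → MvPolynomial σ Ω := fun i => map t.toRingHom (f i) with hft
  obtain ⟨y, hy⟩ := exists_fixed hd hregt
  set gΩ := conjBy L y ft with hgΩ
  have hconj : IsConj L y ft gΩ := isConj_conjBy hL y ft
  have hgdeg : ∀ i, (gΩ i).totalDegree ≤ d := totalDegree_conjBy_le hregt.1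
  have hgtop : ∀ i, topf d gΩ i = topf d (fun i => map s₁.toRingHom (f i)) i := by
    intro i
    apply MvPolynomial.funext
    intro x
    have h1 : L.mulVec (fun j => eval x (topf d gΩ j)) =
        L.mulVec (fun j => eval x (topf d (fun i => map s₁.toRingHom (f i)) j)) := by
      funext j
      rw [← hconj.top (by omega) hregt.1 x j]
      exact hLtop x j
    have h2 := congrArg (L⁻¹.mulVec) h1
    rw [Matrix.mulVec_mulVec, Matrix.mulVec_mulVec, Matrix.nonsing_inv_mul _ hL,
      Matrix.one_mulVec, Matrix.one_mulVec] at h2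
    exact congrFun h2 i
  have hgtop' : ∀ i, topf d gΩ i =
      map (algebraMap k Ω) (topf d (fun i => map s₁₀.toRingHom (f₀ i)) i) := by
    intro i
    rw [hgtop i, ← topf_map]
    simp only [hs₁₀]
  have hgreg : Regular d gΩ := by
    refine ⟨hgdeg, fun x hx => h₁.2 x fun i => ?_⟩
    have h1 := hgtop i
    have h2 := hx i
    show eval x (topf d (fun i => map s₁.toRingHom (f i)) i) = 0
    rw [← h1]
    exact h2
  have hg0 : ∀ i, coeff 0 (lowf d gΩ i) = 0 := by
    intro i
    have h1 : eval 0 (gΩ i) = 0 := by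
      rw [hgΩ, conjBy, map_sum]
      refine Finset.sum_eq_zero fun j _ => ?_
      rw [map_mul, map_sub, eval_aeval_pts, eval_C, eval_C]
      simp only [eval_aff, Matrix.mulVec_zero, Pi.zero_apply, zero_add]
      have h2 : eval (fun j => y j) (ft j) = y j := hy j
      rw [h2, sub_self, mul_zero]
    have h2 : coeff 0 (topf d gΩ i) = 0 :=
      (topf_homogeneous d gΩ i).coeff_eq_zero (by simp; omega)
    have h3 : coeff 0 (gΩ i) = 0 := by
      rw [← constantCoeff_eq, ← eval_zero]
      exact h1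
    rw [lowf, coeff_sub, h3]
    have h4 : coeff 0 (homogeneousComponent d (gΩ i)) = 0 := h2
    rw [h4, sub_zero]
  obtain ⟨Q, hQ, hQk⟩ := hK t hregt
  obtain ⟨Q', hQ', hQk'⟩ := hconj.kills hL hQ hQk
  have hsum : (fun i => map (algebraMap k Ω) (topf d (fun i => map s₁₀.toRingHom (f₀ i)) i) +
      lowf d gΩ i) = gΩ := by
    funext i
    rw [← hgtop' i, topf_add_lowf]
  have hmem := coeff_mem_of_kills (k := k) hd hreg₁₀.regForms
    (P := lowf d gΩ) (lowf_totalDegree (by omega) hgdeg) hg0 hQ' (by rw [hsum]; exact hQk')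
  choose P₀ hP₀ using fun i => exists_lift_of_mem (algebraMap k Ω) (lowf d gΩ i) (hmem i)
  let g : σ → MvPolynomial σ k := fun i => topf d (fun i => map s₁₀.toRingHom (f₀ i)) i + P₀ i
  have hgmap : ∀ i, map (algebraMap k Ω) (g i) = gΩ i := by
    intro i
    rw [← congrFun hsum i, ← hP₀ i, ← map_add]
  have hgregk : Regular d g := by
    apply Regular.of_map hinjk
    simp only [hgmap]
    exact hgreg
  have hft' : AffConj (fun i => map t₀.toRingHom (f₀ i))
      (fun i => map (algebraMap k Ω) (g i)) := by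
    simp only [hgmap, ← ht₀f]
    exact ⟨L, y, hL, hconj⟩
  refine ⟨g, fun s hs hks => ?_⟩
  obtain ⟨s₀, hs₀⟩ := hpt s hks
  have hregs₀ : Regular d (fun i => map s₀.toRingHom (f₀ i)) := by
    apply Regular.of_map hinjk
    simp only [← hs₀]
    exact hs
  have h1 := conj_specialize t₀ ht₀ s₀ hd f₀ hf₀d hregs₀ g hgregk hft'
  have h2 := h1.map (algebraMap k Ω)
  simp only [← hs₀] at h2
  exact h2

end Core

end Pool.Agent.Helper98.PCF
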